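import Mathlib

set_option autoImplicit false

open Set Filter Topology

namespace Pool.Agent.H14Belt

/-- Points near the open segment from `(0,b₁)` to `(0,b₂)` and on the side of an interior point
are interior. -/
lemma near_segment {K : Set (ℝ × ℝ)} (hK : Convex ℝ K) {b₁ b₂ β : ℝ}
    (h1 : ((0 : ℝ), b₁) ∈ K) (h2 : ((0 : ℝ), b₂) ∈ K) (hb1 : b₁ < β) (hb2 : β < b₂)
    {z : ℝ × ℝ} (hz : z ∈ interior K) {d : ℝ × ℝ} (hd : 0 < d.1 * z.1) :
    ∀ᶠ t : ℝ in 𝓝[>] 0, ((0 : ℝ), β) + t • d ∈ interior K := by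
  have hz1 : z.1 ≠ 0 := by rintro h; simp [h] at hd
  have hlam : Tendsto (fun t : ℝ => t * d.1 / z.1) (𝓝[>] 0) (𝓝 0) := by
    have : Tendsto (fun t : ℝ => t * d.1 / z.1) (𝓝 0) (𝓝 (0 * d.1 / z.1)) := by
      apply Continuous.tendsto; fun_prop
    simpa using this.mono_left nhdsWithin_le_nhds
  have hbeta : Tendsto (fun t : ℝ => ((β + t * d.2) - (t * d.1 / z.1) * z.2) / (1 - t * d.1 / z.1))
      (𝓝[>] 0) (𝓝 β) := by
    have : ContinuousAt (fun t : ℝ => ((β + t * d.2) - (t * d.1 / z.1) * z.2) / (1 - t * d.1 / z.1)) 0 := by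
      apply ContinuousAt.div
      · fun_prop
      · fun_prop
      · simp
    have h := this.tendsto
    simp only [zero_mul, zero_div, add_zero, sub_zero, div_one] at h
    exact h.mono_left nhdsWithin_le_nhds
  have e1 : ∀ᶠ t : ℝ in 𝓝[>] 0, t * d.1 / z.1 < 1 := hlam.eventually_lt_const (by norm_num)
  have e2 : ∀ᶠ t : ℝ in 𝓝[>] 0, b₁ < ((β + t * d.2) - (t * d.1 / z.1) * z.2) / (1 - t * d.1 / z.1) :=
    hbeta.eventually_const_lt hb1
  have e3 : ∀ᶠ t : ℝ in 𝓝[>] 0, ((β + t * d.2) - (t * d.1 / z.1) * z.2) / (1 - t * d.1 / z.1) < b₂ :=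
    hbeta.eventually_lt_const hb2
  filter_upwards [e1, e2, e3, self_mem_nhdsWithin] with t h1' h2' h3' ht
  simp only [mem_Ioi] at ht
  set lam := t * d.1 / z.1 with hlamdef
  set β' := ((β + t * d.2) - lam * z.2) / (1 - lam) with hβ'
  have hlam0 : 0 < lam := by
    rw [hlamdef]
    have : t * d.1 / z.1 = t * (d.1 * z.1) / (z.1 * z.1) := by
      field_simp
    rw [this]
    have : 0 < z.1 * z.1 := mul_self_pos.2 hz1
    positivity
  have hmem : ((0 : ℝ), β') ∈ K := by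
    have hseg : ((0 : ℝ), β') = ((b₂ - β') / (b₂ - b₁)) • ((0 : ℝ), b₁) + ((β' - b₁) / (b₂ - b₁)) • ((0 : ℝ), b₂) := by
      have : b₂ - b₁ ≠ 0 := by linarith
      ext
      · simp
      · simp only [Prod.smul_mk, smul_eq_mul, Prod.mk_add_mk]
        field_simp
        ring
    rw [hseg]
    have hpos : 0 < b₂ - b₁ := by linarith
    apply hK h1 h2
    · apply div_nonneg <;> linarith
    · apply div_nonneg <;> linarith
    · field_simp; ring
  have hcombo := hK.combo_self_interior_mem_interior hmem hz (a := 1 - lam) (b := lam)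
    (by linarith) hlam0 (by ring)
  have : ((0 : ℝ), β) + t • d = (1 - lam) • ((0 : ℝ), β') + lam • z := by
    have h1l : 1 - lam ≠ 0 := by linarith
    ext
    · simp only [Prod.fst_add, Prod.smul_fst, smul_eq_mul, mul_zero, zero_add, hlamdef]
      field_simp
    · simp only [Prod.snd_add, Prod.smul_snd, smul_eq_mul]
      rw [hβ']
      field_simp
      ring
  rw [this]
  exact hcombo

/-- A convex set with an interior point and a point with negative `σ`-first coordinate has an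
interior point with that property. -/
lemma exists_interior_side {K : Set (ℝ × ℝ)} (hK : Convex ℝ K) (hint : (interior K).Nonempty)
    {σ : ℝ} {y : ℝ × ℝ} (hy : y ∈ K) (hσ : σ * y.1 < 0) :
    ∃ z ∈ interior K, σ * z.1 < 0 := by
  obtain ⟨w, hw⟩ := hint
  have hlim : Tendsto (fun t : ℝ => σ * ((1 - t) • y + t • w).1) (𝓝[>] 0) (𝓝 (σ * y.1)) := by
    have : ContinuousAt (fun t : ℝ => σ * ((1 - t) • y + t • w).1) 0 := by
      apply Continuous.continuousAt; fun_prop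
    have h := this.tendsto
    simp only [sub_zero, one_smul, zero_smul, add_zero] at h
    exact h.mono_left nhdsWithin_le_nhds
  have h1 := hlim.eventually_lt_const hσ
  have h2 : ∀ᶠ t : ℝ in 𝓝[>] 0, t < 1 := by
    have : ∀ᶠ t : ℝ in 𝓝 0, t < 1 := gt_mem_nhds (by norm_num)
    exact this.filter_mono nhdsWithin_le_nhds
  obtain ⟨t, h1, h2, h3⟩ := (h1.and (h2.and self_mem_nhdsWithin)).exists
  exact ⟨_, hK.combo_self_interior_mem_interior hy hw (a := 1 - t) (b := t) (by linarith) h3 (by ring), h1⟩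

/-- A finite family of planar closed convex sets forming a tiling around the origin. -/
structure LocalTiling {ι : Type*} (s : Finset ι) (K : ι → Set (ℝ × ℝ)) : Prop where
  conv : ∀ i ∈ s, Convex ℝ (K i)
  closed : ∀ i ∈ s, IsClosed (K i)
  zero : ∀ i ∈ s, (0 : ℝ × ℝ) ∈ K i
  int_ne : ∀ i ∈ s, (interior (K i)).Nonempty
  disj : ∀ i ∈ s, ∀ j ∈ s, i ≠ j → Disjoint (interior (K i)) (interior (K j))
  cover : (⋃ i ∈ s, K i) ∈ 𝓝 (0 : ℝ × ℝ)

/-- All points of `K` are lexicographically at most `0`, for the coordinate signs `σ`, `τ`. -/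
def Lex (σ τ : ℝ) (K : Set (ℝ × ℝ)) : Prop := ∀ y ∈ K, σ * y.1 < 0 ∨ (y.1 = 0 ∧ τ * y.2 ≤ 0)

/-- `K` lies on the nonpositive side for the sign `σ`. -/
def Below (σ : ℝ) (K : Set (ℝ × ℝ)) : Prop := ∀ y ∈ K, σ * y.1 ≤ 0

/-- `K` contains a point of the axis on the side `τ`. -/
def Has (τ : ℝ) (K : Set (ℝ × ℝ)) : Prop := ∃ y ∈ K, y.1 = 0 ∧ 0 < τ * y.2

lemma lex_iff {σ τ : ℝ} (hσ : σ ≠ 0) (K : Set (ℝ × ℝ)) : Lex σ τ K ↔ Below σ K ∧ ¬ Has τ K := by
  constructor
  · intro h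
    refine ⟨fun y hy => ?_, ?_⟩
    · rcases h y hy with h | ⟨h, _⟩
      · exact h.le
      · simp [h]
    · rintro ⟨y, hy, h0, h1⟩
      rcases h y hy with h | ⟨_, h⟩
      · simp [h0] at h
      · linarith
  · rintro ⟨h1, h2⟩ y hy
    rcases (h1 y hy).lt_or_eq with h | h
    · exact Or.inl h
    · right
      have h0 : y.1 = 0 := by
        rcases mul_eq_zero.1 h with h | h
        · exact absurd h hσ
        · exact h
      refine ⟨h0, ?_⟩
      by_contra hc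
      push Not at hc
      exact h2 ⟨y, hy, h0, hc⟩

/-- Two different tiles cannot both contain an axis point on the side `τ` and a point on the side
`-σ`. -/
lemma unique_side {ι : Type*} {s : Finset ι} {K : ι → Set (ℝ × ℝ)} (h : LocalTiling s K)
    {σ τ : ℝ} (hτ : τ = 1 ∨ τ = -1) {i j : ι} (hi : i ∈ s) (hj : j ∈ s)
    (h1 : Has τ (K i)) (h2 : Has τ (K j)) (h3 : ∃ y ∈ K i, σ * y.1 < 0) (h4 : ∃ y ∈ K j, σ * y.1 < 0) :
    i = j := by
  by_contra hij
  obtain ⟨y1, hy1, hy10, hy1τ⟩ := h1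
  obtain ⟨y2, hy2, hy20, hy2τ⟩ := h2
  obtain ⟨w1, hw1, hw1σ⟩ := h3
  obtain ⟨w2, hw2, hw2σ⟩ := h4
  obtain ⟨z1, hz1, hz1σ⟩ := exists_interior_side (h.conv i hi) (h.int_ne i hi) hw1 hw1σ
  obtain ⟨z2, hz2, hz2σ⟩ := exists_interior_side (h.conv j hj) (h.int_ne j hj) hw2 hw2σ
  have key : ∀ (k : ι), k ∈ s → ∀ (y z : ℝ × ℝ), y ∈ K k → y.1 = 0 → 0 < τ * y.2 → z ∈ interior (K k) →
      σ * z.1 < 0 → ∀ β : ℝ, 0 < τ * β → τ * β < τ * y.2 →
      ∀ᶠ t : ℝ in 𝓝[>] 0, ((0 : ℝ), β) + t • ((-σ, 0) : ℝ × ℝ) ∈ interior (K k) := by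
    intro k hk y z hy hy0 hyτ hz hzσ β hβ1 hβ2
    have hy' : ((0 : ℝ), y.2) ∈ K k := by
      have : y = ((0 : ℝ), y.2) := by ext <;> simp [hy0]
      rwa [← this]
    have hzero : ((0 : ℝ), (0 : ℝ)) ∈ K k := h.zero k hk
    have hd : 0 < ((-σ, 0) : ℝ × ℝ).1 * z.1 := by simp only; nlinarith
    rcases hτ with rfl | rfl
    · exact near_segment (h.conv k hk) hzero hy' (by linarith) (by linarith) hz hd
    · exact near_segment (h.conv k hk) hy' hzero (by linarith) (by linarith) hz hd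
  set m := min (τ * y1.2) (τ * y2.2) with hm
  have hmpos : 0 < m := lt_min hy1τ hy2τ
  have hτ2 : τ * τ = 1 := by rcases hτ with rfl | rfl <;> norm_num
  have hβ : τ * (τ * (m / 2)) = m / 2 := by rw [← mul_assoc, hτ2, one_mul]
  have e1 := key i hi y1 z1 hy1 hy10 hy1τ hz1 hz1σ (τ * (m / 2)) (by rw [hβ]; linarith)
    (by rw [hβ]; have := min_le_left (τ * y1.2) (τ * y2.2); linarith)
  have e2 := key j hj y2 z2 hy2 hy20 hy2τ hz2 hz2σ (τ * (m / 2)) (by rw [hβ]; linarith)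
    (by rw [hβ]; have := min_le_right (τ * y1.2) (τ * y2.2); linarith)
  obtain ⟨t, ht1, ht2⟩ := (e1.and e2).exists
  exact Set.disjoint_left.1 (h.disj i hi j hj hij) ht1 ht2

lemma interior_side_of_below {K : Set (ℝ × ℝ)} {σ : ℝ} (hσ0 : σ ≠ 0) (hb : Below σ K)
    {z : ℝ × ℝ} (hz : z ∈ interior K) : σ * z.1 < 0 := by
  rcases (hb z (interior_subset hz)).lt_or_eq with h | h
  · exact h
  exfalso
  have hnear : ∀ᶠ t : ℝ in 𝓝 0, z + t • ((σ, 0) : ℝ × ℝ) ∈ K := by
    have hc : ContinuousAt (fun t : ℝ => z + t • ((σ, 0) : ℝ × ℝ)) 0 := by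
      apply Continuous.continuousAt; fun_prop
    apply hc.eventually_mem
    simpa using mem_interior_iff_mem_nhds.1 hz
  have h2 : ∀ᶠ t : ℝ in 𝓝[>] 0, z + t • ((σ, 0) : ℝ × ℝ) ∈ K := hnear.filter_mono nhdsWithin_le_nhds
  obtain ⟨t, ht1, ht2⟩ := (h2.and self_mem_nhdsWithin).exists
  have := hb _ ht1
  simp only [Prod.fst_add, Prod.smul_fst, smul_eq_mul] at this ht2
  have h3 : σ * (z.1 + t * σ) = t * (σ * σ) := by rw [mul_add, h]; ring
  have : 0 < t * (σ * σ) := mul_pos ht2 (mul_self_pos.2 hσ0)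
  linarith

/-- The side of the axis covered from below is covered from above. -/
lemma exists_opposite {ι : Type*} {s : Finset ι} {K : ι → Set (ℝ × ℝ)} (h : LocalTiling s K)
    {σ τ : ℝ} (hσ : σ = 1 ∨ σ = -1) (hτ : τ = 1 ∨ τ = -1) {i : ι} (hi : i ∈ s)
    (h1 : Below σ (K i)) (h2 : Has τ (K i)) :
    ∃ j ∈ s, Below (-σ) (K j) ∧ Has τ (K j) := by
  classical
  have hσ0 : σ ≠ 0 := by rcases hσ with rfl | rfl <;> norm_num
  have hτ2 : τ * τ = 1 := by rcases hτ with rfl | rfl <;> norm_num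
  have hσ2 : σ * σ = 1 := by rcases hσ with rfl | rfl <;> norm_num
  obtain ⟨y, hy, hy0, hyτ⟩ := h2
  obtain ⟨z, hz⟩ := h.int_ne i hi
  have hzσ := interior_side_of_below hσ0 h1 hz
  -- choose `β` small
  have hnb : ∀ᶠ b : ℝ in 𝓝[>] 0, ((0 : ℝ), τ * b) ∈ interior (⋃ i ∈ s, K i) := by
    have hc : ContinuousAt (fun b : ℝ => ((0 : ℝ), τ * b)) 0 := by
      apply Continuous.continuousAt; fun_prop
    have : ∀ᶠ b : ℝ in 𝓝 0, ((0 : ℝ), τ * b) ∈ interior (⋃ i ∈ s, K i) := by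
      apply hc.eventually_mem
      simp only [mul_zero]
      exact interior_mem_nhds.2 h.cover
    exact this.filter_mono nhdsWithin_le_nhds
  have hsm : ∀ᶠ b : ℝ in 𝓝[>] 0, b < τ * y.2 := by
    have : ∀ᶠ b : ℝ in 𝓝 0, b < τ * y.2 := gt_mem_nhds hyτ
    exact this.filter_mono nhdsWithin_le_nhds
  obtain ⟨b, hb1, hb2, hb3⟩ := (hnb.and (hsm.and self_mem_nhdsWithin)).exists
  replace hb3 : 0 < b := hb3
  set β := τ * b with hβdef
  have hτβ : τ * β = b := by rw [hβdef, ← mul_assoc, hτ2, one_mul]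
  -- points above the segment
  have hev : ∀ᶠ t : ℝ in 𝓝[>] 0, ∃ j ∈ s, ((0 : ℝ), β) + t • ((σ, 0) : ℝ × ℝ) ∈ K j := by
    have hc : ContinuousAt (fun t : ℝ => ((0 : ℝ), β) + t • ((σ, 0) : ℝ × ℝ)) 0 := by
      apply Continuous.continuousAt; fun_prop
    have : ∀ᶠ t : ℝ in 𝓝 0, ((0 : ℝ), β) + t • ((σ, 0) : ℝ × ℝ) ∈ ⋃ i ∈ s, K i := by
      apply hc.eventually_mem
      simpa using mem_interior_iff_mem_nhds.1 hb1
    have := this.filter_mono (nhdsWithin_le_nhds (s := Ioi 0))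
    filter_upwards [this] with t ht
    simpa using ht
  have hfr : ∃ j ∈ s, ∃ᶠ t : ℝ in 𝓝[>] 0, ((0 : ℝ), β) + t • ((σ, 0) : ℝ × ℝ) ∈ K j := by
    by_contra hcon
    push Not at hcon
    have : ∀ᶠ t : ℝ in 𝓝[>] 0, ∀ j ∈ s, ((0 : ℝ), β) + t • ((σ, 0) : ℝ × ℝ) ∉ K j := by
      rw [Finset.eventually_all]
      intro j hj
      exact hcon j hj
    obtain ⟨t, ht1, ht2⟩ := (hev.and this).exists
    obtain ⟨j, hj, hjt⟩ := ht1
    exact ht2 j hj hjt
  obtain ⟨j, hj, hjfr⟩ := hfr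
  have hmem : ((0 : ℝ), β) ∈ K j := by
    have hlim : Tendsto (fun t : ℝ => ((0 : ℝ), β) + t • ((σ, 0) : ℝ × ℝ)) (𝓝[>] 0) (𝓝 ((0 : ℝ), β)) := by
      have hc : ContinuousAt (fun t : ℝ => ((0 : ℝ), β) + t • ((σ, 0) : ℝ × ℝ)) 0 := by
        apply Continuous.continuousAt; fun_prop
      have := hc.tendsto
      simp only [zero_smul, add_zero] at this
      exact this.mono_left nhdsWithin_le_nhds
    exact (h.closed j hj).mem_of_frequently_of_tendsto hjfr hlim
  have hij : i ≠ j := by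
    rintro rfl
    obtain ⟨t, ht1, ht2⟩ := (hjfr.and_eventually self_mem_nhdsWithin).exists
    have := h1 _ ht1
    simp only [Prod.fst_add, Prod.smul_fst, smul_eq_mul, zero_add] at this ht2
    have h3 : σ * (t * σ) = t * (σ * σ) := by ring
    rw [h3, hσ2] at this
    linarith
  refine ⟨j, hj, ?_, ⟨_, hmem, rfl, by simp only; rw [hτβ]; exact hb3⟩⟩
  intro w hw
  by_contra hcon
  push Not at hcon
  have hwσ : σ * w.1 < 0 := by linarith
  have hy' : ((0 : ℝ), y.2) ∈ K i := by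
    have : y = ((0 : ℝ), y.2) := by ext <;> simp [hy0]
    rwa [← this]
  have hzero : ((0 : ℝ), (0 : ℝ)) ∈ K i := h.zero i hi
  have hd : 0 < (w - ((0 : ℝ), β)).1 * z.1 := by
    simp only [Prod.fst_sub, sub_zero]
    have : w.1 * z.1 = (σ * w.1) * (σ * z.1) := by
      calc w.1 * z.1 = (σ * σ) * (w.1 * z.1) := by rw [hσ2, one_mul]
        _ = _ := by ring
    rw [this]
    exact mul_pos_of_neg_of_neg hwσ hzσ
  have hev2 : ∀ᶠ t : ℝ in 𝓝[>] 0, ((0 : ℝ), β) + t • (w - ((0 : ℝ), β)) ∈ interior (K i) := by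
    rcases hτ with rfl | rfl
    · exact near_segment (h.conv i hi) hzero hy' (by linarith) (by linarith) hz hd
    · exact near_segment (h.conv i hi) hy' hzero (by linarith) (by linarith) hz hd
  have h1' : ∀ᶠ t : ℝ in 𝓝[>] 0, t < 1 := by
    have : ∀ᶠ t : ℝ in 𝓝 0, t < 1 := gt_mem_nhds (by norm_num)
    exact this.filter_mono nhdsWithin_le_nhds
  obtain ⟨t, ht1, ht2, ht3⟩ := (hev2.and (h1'.and self_mem_nhdsWithin)).exists
  replace ht3 : 0 < t := ht3
  have hKj : ((0 : ℝ), β) + t • (w - ((0 : ℝ), β)) ∈ K j := by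
    have := (h.conv j hj).add_smul_sub_mem hmem hw ⟨ht3.le, ht2.le⟩
    exact this
  have hcl : K j ⊆ closure (interior (K j)) := by
    rw [(h.conv j hj).closure_interior_eq_closure_of_nonempty_interior (h.int_ne j hj)]
    exact subset_closure
  have := hcl hKj
  rw [mem_closure_iff] at this
  obtain ⟨p, hp1, hp2⟩ := this _ isOpen_interior ht1
  exact Set.disjoint_left.1 (h.disj i hi j hj hij) hp1 hp2

open Classical in
/-- The local balance identity. -/
lemma local_balance {ι : Type*} {s : Finset ι} {K : ι → Set (ℝ × ℝ)} (h : LocalTiling s K) :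
    (s.filter fun i => Lex 1 1 (K i)).card + (s.filter fun i => Lex (-1) (-1) (K i)).card =
    (s.filter fun i => Lex 1 (-1) (K i)).card + (s.filter fun i => Lex (-1) 1 (K i)).card := by
  have hsplit : ∀ σ τ : ℝ, (σ = 1 ∨ σ = -1) →
      (s.filter fun i => Lex σ τ (K i)).card + (s.filter fun i => Below σ (K i) ∧ Has τ (K i)).card =
      (s.filter fun i => Below σ (K i)).card := by
    intro σ τ hσ
    have hσ0 : σ ≠ 0 := by rcases hσ with rfl | rfl <;> norm_num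
    have e : (s.filter fun i => Lex σ τ (K i)) = (s.filter fun i => Below σ (K i) ∧ ¬ Has τ (K i)) := by
      apply Finset.filter_congr
      intro i _
      exact lex_iff hσ0 (K i)
    rw [e, ← Finset.filter_filter, ← Finset.filter_filter, add_comm]
    exact Finset.card_filter_add_card_filter_not _
  have hle : ∀ σ τ : ℝ, (σ = 1 ∨ σ = -1) → (τ = 1 ∨ τ = -1) →
      (s.filter fun i => Below σ (K i) ∧ Has τ (K i)).card ≤ 1 := by
    intro σ τ hσ hτ
    rw [Finset.card_le_one]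
    intro i hi j hj
    simp only [Finset.mem_filter] at hi hj
    have hσ0 : σ ≠ 0 := by rcases hσ with rfl | rfl <;> norm_num
    have aux : ∀ k ∈ s, Below σ (K k) → ∃ y ∈ K k, σ * y.1 < 0 := by
      intro k hk hb
      obtain ⟨z, hz⟩ := h.int_ne k hk
      exact ⟨z, interior_subset hz, interior_side_of_below hσ0 hb hz⟩
    exact unique_side h hτ hi.1 hj.1 hi.2.2 hj.2.2 (aux i hi.1 hi.2.1) (aux j hj.1 hj.2.1)
  have himp : ∀ σ τ : ℝ, (σ = 1 ∨ σ = -1) → (τ = 1 ∨ τ = -1) →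
      (s.filter fun i => Below σ (K i) ∧ Has τ (K i)).card ≤
      (s.filter fun i => Below (-σ) (K i) ∧ Has τ (K i)).card := by
    intro σ τ hσ hτ
    rcases Finset.eq_empty_or_nonempty (s.filter fun i => Below σ (K i) ∧ Has τ (K i)) with he | ⟨i, hi⟩
    · rw [he]; simp
    · simp only [Finset.mem_filter] at hi
      obtain ⟨j, hj, hj1, hj2⟩ := exists_opposite h hσ hτ hi.1 hi.2.1 hi.2.2
      have : 0 < (s.filter fun i => Below (-σ) (K i) ∧ Has τ (K i)).card :=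
        Finset.card_pos.2 ⟨j, by simp [hj, hj1, hj2]⟩
      have := hle σ τ hσ hτ
      omega
  have a1 := hsplit 1 1 (Or.inl rfl)
  have a2 := hsplit (-1) (-1) (Or.inr rfl)
  have a3 := hsplit 1 (-1) (Or.inl rfl)
  have a4 := hsplit (-1) 1 (Or.inr rfl)
  have b1 := himp 1 1 (Or.inl rfl) (Or.inl rfl)
  have b2 := himp (-1) 1 (Or.inr rfl) (Or.inl rfl)
  have b3 := himp 1 (-1) (Or.inl rfl) (Or.inr rfl)
  have b4 := himp (-1) (-1) (Or.inr rfl) (Or.inr rfl)
  rw [neg_neg] at b2 b4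
  omega

end Pool.Agent.H14Belt
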