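import Mathlib
import Pool.Agent.H14Belt.Planar

set_option autoImplicit false

open Set Filter Topology

namespace Pool.Agent.H14Belt

/-- Some linear functional is negative on all nonzero points of `K`. -/
def Pointed (K : Set (ℝ × ℝ)) : Prop := ∃ w : ℝ × ℝ, ∀ y ∈ K, y ≠ 0 → w.1 * y.1 + w.2 * y.2 < 0

lemma hit_cases {K : Set (ℝ × ℝ)} (hK : Convex ℝ K)
    (hint : (interior K).Nonempty) (h1 : ¬ Lex 1 1 K) (h2 : ¬ Lex (-1) (-1) K) :
    (Has 1 K ∧ ∃ y ∈ K, (1 : ℝ) * y.1 < 0) ∨ (Has (-1) K ∧ ∃ y ∈ K, (-1 : ℝ) * y.1 < 0) := by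
  unfold Lex at h1 h2
  push Not at h1 h2
  obtain ⟨y, hy, hy1, hy2⟩ := h1
  obtain ⟨y', hy', hy1', hy2'⟩ := h2
  by_cases hneg : ∃ p ∈ K, (1 : ℝ) * p.1 < 0
  · by_cases hpos : ∃ p ∈ K, (-1 : ℝ) * p.1 < 0
    · obtain ⟨p, hp, hp1⟩ := hneg
      obtain ⟨q, hq, hq1⟩ := hpos
      obtain ⟨zp, hzp, hzp1⟩ := exists_interior_side hK hint hp hp1
      obtain ⟨zq, hzq, hzq1⟩ := exists_interior_side hK hint hq hq1
      have hconv := hK.interior
      have hden : 0 < zq.1 - zp.1 := by linarith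
      set a := zq.1 / (zq.1 - zp.1) with ha
      set b := -zp.1 / (zq.1 - zp.1) with hb
      have hab : a + b = 1 := by rw [ha, hb]; field_simp; ring
      have ha0 : 0 ≤ a := by rw [ha]; apply div_nonneg <;> linarith
      have hb0 : 0 ≤ b := by rw [hb]; apply div_nonneg <;> linarith
      have hc := hconv hzp hzq ha0 hb0 hab
      have hc1 : (a • zp + b • zq).1 = 0 := by
        simp only [Prod.fst_add, Prod.smul_fst, smul_eq_mul, ha, hb]
        field_simp
        ring
      rcases lt_trichotomy ((a • zp + b • zq).2) 0 with h | h | h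
      · right
        exact ⟨⟨_, interior_subset hc, hc1, by linarith⟩, q, hq, hq1⟩
      · left
        have h00 : (0 : ℝ × ℝ) ∈ interior K := by
          have : a • zp + b • zq = 0 := by ext <;> assumption
          rwa [← this]
        have hnear : ∀ᶠ t : ℝ in 𝓝 0, ((0 : ℝ), t) ∈ K := by
          have hc : ContinuousAt (fun t : ℝ => ((0 : ℝ), t)) 0 := by
            apply Continuous.continuousAt; fun_prop
          apply hc.eventually_mem
          exact mem_interior_iff_mem_nhds.1 h00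
        have hnear' : ∀ᶠ t : ℝ in 𝓝[>] 0, ((0 : ℝ), t) ∈ K := hnear.filter_mono nhdsWithin_le_nhds
        obtain ⟨t, ht1, ht2⟩ := (hnear'.and self_mem_nhdsWithin).exists
        replace ht2 : 0 < t := ht2
        exact ⟨⟨_, ht1, rfl, by simpa using ht2⟩, p, hp, hp1⟩
      · left
        exact ⟨⟨_, interior_subset hc, hc1, by linarith⟩, p, hp, hp1⟩
    · push Not at hpos
      left
      refine ⟨⟨y, hy, ?_, ?_⟩, hneg⟩
      · have := hpos y hy; linarith
      · have := hpos y hy
        have : y.1 = 0 := by linarith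
        have := hy2 this
        linarith
  · push Not at hneg
    right
    refine ⟨⟨y', hy', ?_, ?_⟩, ?_⟩
    · have := hneg y' hy'; linarith
    · have := hneg y' hy'
      have : y'.1 = 0 := by linarith
      have := hy2' this
      linarith
    · obtain ⟨z, hz⟩ := hint
      refine ⟨z, interior_subset hz, ?_⟩
      apply interior_side_of_below (K := K) (by norm_num) _ hz
      intro p hp
      have := hneg p hp
      linarith

open Classical in
/-- The local bound for the number of pointed tiles. -/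
lemma local_total {ι : Type*} {s : Finset ι} {K : ι → Set (ℝ × ℝ)} (h : LocalTiling s K) :
    (s.filter fun i => Pointed (K i)).card ≤
    3 * ((s.filter fun i => Lex 1 1 (K i)).card + (s.filter fun i => Lex (-1) (-1) (K i)).card) := by
  set R : ι → Prop := fun i => Has 1 (K i) ∧ ∃ y ∈ K i, (1 : ℝ) * y.1 < 0 with hR
  set L : ι → Prop := fun i => Has (-1) (K i) ∧ ∃ y ∈ K i, (-1 : ℝ) * y.1 < 0 with hL
  have hRu : ∀ i ∈ s, ∀ j ∈ s, R i → R j → i = j := fun i hi j hj h1 h2 =>
    unique_side h (Or.inl rfl) hi hj h1.1 h2.1 h1.2 h2.2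
  have hLu : ∀ i ∈ s, ∀ j ∈ s, L i → L j → i = j := fun i hi j hj h1 h2 =>
    unique_side h (Or.inr rfl) hi hj h1.1 h2.1 h1.2 h2.2
  have hcR : (s.filter R).card ≤ 1 := by
    rw [Finset.card_le_one]
    intro i hi j hj
    simp only [Finset.mem_filter] at hi hj
    exact hRu i hi.1 j hj.1 hi.2 hj.2
  have hcL : (s.filter L).card ≤ 1 := by
    rw [Finset.card_le_one]
    intro i hi j hj
    simp only [Finset.mem_filter] at hi hj
    exact hLu i hi.1 j hj.1 hi.2 hj.2
  have hsub : (s.filter fun i => Pointed (K i)) ⊆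
      (s.filter R ∪ s.filter L) ∪ ((s.filter fun i => Lex 1 1 (K i)) ∪ (s.filter fun i => Lex (-1) (-1) (K i))) := by
    intro i hi
    simp only [Finset.mem_filter] at hi
    simp only [Finset.mem_union, Finset.mem_filter]
    by_cases h1 : Lex 1 1 (K i)
    · exact Or.inr (Or.inl ⟨hi.1, h1⟩)
    by_cases h2 : Lex (-1) (-1) (K i)
    · exact Or.inr (Or.inr ⟨hi.1, h2⟩)
    rcases hit_cases (h.conv i hi.1) (h.int_ne i hi.1) h1 h2 with h3 | h3
    · exact Or.inl (Or.inl ⟨hi.1, h3⟩)
    · exact Or.inl (Or.inr ⟨hi.1, h3⟩)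
  have hcard := (Finset.card_le_card hsub).trans (Finset.card_union_le _ _)
  have hcard2 := Finset.card_union_le (s.filter R) (s.filter L)
  have hcard3 := Finset.card_union_le (s.filter fun i => Lex 1 1 (K i)) (s.filter fun i => Lex (-1) (-1) (K i))
  set k := (s.filter fun i => Lex 1 1 (K i)).card + (s.filter fun i => Lex (-1) (-1) (K i)).card with hk
  rcases Finset.eq_empty_or_nonempty (s.filter fun i => Pointed (K i)) with he | ⟨i₀, hi₀⟩
  · rw [he]; simp
  suffices 1 ≤ k by omega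
  by_contra hcon
  have hk0 : k = 0 := by omega
  have hk1 : ∀ i ∈ s, ¬ Lex 1 1 (K i) := by
    intro i hi hc
    have : 0 < (s.filter fun i => Lex 1 1 (K i)).card := Finset.card_pos.2 ⟨i, by simp [hi, hc]⟩
    omega
  have hk2 : ∀ i ∈ s, ¬ Lex (-1) (-1) (K i) := by
    intro i hi hc
    have : 0 < (s.filter fun i => Lex (-1) (-1) (K i)).card := Finset.card_pos.2 ⟨i, by simp [hi, hc]⟩
    omega
  have hhit : ∀ i ∈ s, R i ∨ L i := fun i hi =>
    hit_cases (h.conv i hi) (h.int_ne i hi) (hk1 i hi) (hk2 i hi)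
  simp only [Finset.mem_filter] at hi₀
  obtain ⟨hi₀s, w, hw⟩ := hi₀
  have hother : ∀ j ∈ s, ∀ j' ∈ s, j ≠ i₀ → j' ≠ i₀ → j = j' := by
    intro j hj j' hj' hne hne'
    rcases hhit i₀ hi₀s with h0 | h0
    · rcases hhit j hj with h1 | h1
      · exact absurd (hRu j hj i₀ hi₀s h1 h0) hne
      · rcases hhit j' hj' with h2 | h2
        · exact absurd (hRu j' hj' i₀ hi₀s h2 h0) hne'
        · exact hLu j hj j' hj' h1 h2
    · rcases hhit j hj with h1 | h1
      · rcases hhit j' hj' with h2 | h2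
        · exact hRu j hj j' hj' h1 h2
        · exact absurd (hLu j' hj' i₀ hi₀s h2 h0) hne'
      · exact absurd (hLu j hj i₀ hi₀s h1 h0) hne
  -- the direction orthogonal to `w`
  set m : ℝ × ℝ := (-w.2, w.1) with hm
  have hw0 : w ≠ 0 := by
    rintro rfl
    obtain ⟨z, hz⟩ := h.int_ne i₀ hi₀s
    have hne : ∃ z' ∈ K i₀, z' ≠ 0 := by
      by_cases hz0 : z = 0
      · have hnear : ∀ᶠ t : ℝ in 𝓝 0, ((0 : ℝ), t) ∈ K i₀ := by
          have hc : ContinuousAt (fun t : ℝ => ((0 : ℝ), t)) 0 := by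
            apply Continuous.continuousAt; fun_prop
          apply hc.eventually_mem
          have := mem_interior_iff_mem_nhds.1 hz
          rw [hz0] at this
          exact this
        have hnear' : ∀ᶠ t : ℝ in 𝓝[>] 0, ((0 : ℝ), t) ∈ K i₀ := hnear.filter_mono nhdsWithin_le_nhds
        obtain ⟨t, ht1, ht2⟩ := (hnear'.and self_mem_nhdsWithin).exists
        replace ht2 : 0 < t := ht2
        refine ⟨_, ht1, ?_⟩
        intro hc
        have := congrArg Prod.snd hc
        simp at this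
        linarith
      · exact ⟨z, interior_subset hz, hz0⟩
    obtain ⟨z', hz', hz'0⟩ := hne
    have := hw z' hz' hz'0
    simp at this
  have hm0 : m ≠ 0 := by
    intro hc
    apply hw0
    have h1 := congrArg Prod.fst hc
    have h2 := congrArg Prod.snd hc
    simp only [hm, Prod.fst_zero, Prod.snd_zero, neg_eq_zero] at h1 h2
    ext <;> simp [h1, h2]
  have hnot : ∀ t : ℝ, t ≠ 0 → t • m ∉ K i₀ := by
    intro t ht hc
    have := hw _ hc (smul_ne_zero ht hm0)
    simp only [hm, Prod.smul_mk, smul_eq_mul] at this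
    nlinarith
  have hnear : ∀ᶠ t : ℝ in 𝓝 0, t • m ∈ interior (⋃ i ∈ s, K i) := by
    have hc : ContinuousAt (fun t : ℝ => t • m) 0 := by
      apply Continuous.continuousAt; fun_prop
    apply hc.eventually_mem
    simp only [zero_smul]
    exact interior_mem_nhds.2 h.cover
  have hnear' : ∀ᶠ t : ℝ in 𝓝 0, (-t) • m ∈ interior (⋃ i ∈ s, K i) := by
    have hc : ContinuousAt (fun t : ℝ => (-t) • m) 0 := by
      apply Continuous.continuousAt; fun_prop
    apply hc.eventually_mem
    simp only [neg_zero, zero_smul]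
    exact interior_mem_nhds.2 h.cover
  obtain ⟨t, ⟨ht1, ht2⟩, ht3⟩ := (((hnear.and hnear').filter_mono
    (nhdsWithin_le_nhds (s := Ioi (0 : ℝ)))).and self_mem_nhdsWithin).exists
  replace ht3 : 0 < t := ht3
  have hex : ∃ j ∈ s, j ≠ i₀ := by
    have := interior_subset ht1
    simp only [mem_iUnion, exists_prop] at this
    obtain ⟨j, hj, hjt⟩ := this
    refine ⟨j, hj, ?_⟩
    rintro rfl
    exact hnot t ht3.ne' hjt
  obtain ⟨j, hj, hji⟩ := hex
  have hin : ∀ p : ℝ × ℝ, p ∈ interior (⋃ i ∈ s, K i) → p ∉ K i₀ → p ∈ interior (K j) := by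
    intro p hp hp0
    rw [mem_interior]
    refine ⟨interior (⋃ i ∈ s, K i) ∩ (K i₀)ᶜ, ?_, ?_, ⟨hp, hp0⟩⟩
    · rintro q ⟨hq1, hq2⟩
      have := interior_subset hq1
      simp only [mem_iUnion, exists_prop] at this
      obtain ⟨j', hj', hjt⟩ := this
      have hne : j' ≠ i₀ := by rintro rfl; exact hq2 hjt
      rwa [hother j hj j' hj' hji hne]
    · exact isOpen_interior.inter (h.closed i₀ hi₀s).isOpen_compl
  have hp1 := hin _ ht1 (hnot t ht3.ne')
  have hp2 := hin _ ht2 (hnot (-t) (neg_ne_zero.2 ht3.ne'))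
  have h0 : (0 : ℝ × ℝ) ∈ interior (K j) := by
    have := (h.conv j hj).interior hp1 hp2 (a := 1 / 2) (b := 1 / 2) (by norm_num) (by norm_num) (by norm_num)
    have e : (1 / 2 : ℝ) • t • m + (1 / 2 : ℝ) • (-t) • m = 0 := by
      rw [neg_smul, smul_neg, add_neg_cancel]
    rwa [e] at this
  have hcl : (0 : ℝ × ℝ) ∈ closure (interior (K i₀)) := by
    rw [(h.conv i₀ hi₀s).closure_interior_eq_closure_of_nonempty_interior (h.int_ne i₀ hi₀s)]
    exact subset_closure (h.zero i₀ hi₀s)
  rw [mem_closure_iff] at hcl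
  obtain ⟨p, hp1, hp2⟩ := hcl _ isOpen_interior h0
  exact Set.disjoint_left.1 (h.disj j hj i₀ hi₀s hji) hp1 hp2

end Pool.Agent.H14Belt
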