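import Mathlib
import Pool.Agent.H14Belt.Planar
import Pool.Agent.H14Belt.Pointed

set_option autoImplicit false

open Set Filter Topology
open scoped RealInnerProductSpace

namespace Pool.Agent.H14Belt

variable {E : Type*} [NormedAddCommGroup E] [InnerProductSpace ℝ E]

/-- The face of `T` in direction `u`. -/
def face (T : Set E) (u : E) : Set E := {x ∈ T | ∀ y ∈ T, ⟪u, y⟫ ≤ ⟪u, x⟫}

/-- The points of `T` lying on a face of `T` which is contained in a translate of the orthogonal
complement of `u` and `v`. -/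
def beltRidges (T : Set E) (u v : E) : Set E :=
  {x ∈ T | ∃ p q : ℝ, ∀ y ∈ T, ⟪p • u + q • v, y - x⟫ < 0 ∨ (⟪u, y - x⟫ = 0 ∧ ⟪v, y - x⟫ = 0)}

/-- The common orthogonal complement of `u` and `v`. -/
noncomputable def perp (u v : E) : Submodule ℝ E := (Submodule.span ℝ {u, v})ᗮ

lemma mem_perp {u v l : E} : l ∈ perp u v ↔ ⟪u, l⟫ = 0 ∧ ⟪v, l⟫ = 0 := by
  unfold perp
  rw [Submodule.mem_orthogonal]
  constructor
  · intro h
    exact ⟨h u (Submodule.subset_span (by simp)), h v (Submodule.subset_span (by simp))⟩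
  · rintro ⟨h1, h2⟩ w hw
    induction hw using Submodule.span_induction with
    | mem x hx =>
      simp only [mem_insert_iff, mem_singleton_iff] at hx
      rcases hx with rfl | rfl
      · exact h1
      · exact h2
    | zero => simp
    | add x y _ _ hx hy => rw [inner_add_left, hx, hy, add_zero]
    | smul a x _ hx => rw [inner_smul_left, hx, mul_zero]

/-- The planar slice of `T` at `x`. -/
def slice (u v : E) (T : Set E) (x : E) : Set (ℝ × ℝ) := {p | x + p.1 • u + p.2 • v ∈ T}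

/-- `T` contains a neighbourhood of `x` in the flat through `x` orthogonal to `u` and `v`. -/
def Gen (u v : E) (T : Set E) (x : E) : Prop := ∀ᶠ l : perp u v in 𝓝 0, x + (l : E) ∈ T

variable {u v : E}

lemma Gen.mem {T : Set E} {x : E} (h : Gen u v T x) : x ∈ T := by
  have := h.self_of_nhds
  simpa using this

lemma slice_convex {T : Set E} (hT : Convex ℝ T) (x : E) : Convex ℝ (slice u v T x) := by
  intro p hp q hq a b ha hb hab
  simp only [slice, mem_ofPred_eq] at hp hq ⊢
  have := hT hp hq ha hb hab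
  have e : a • (x + p.1 • u + p.2 • v) + b • (x + q.1 • u + q.2 • v) =
      x + (a • p + b • q).1 • u + (a • p + b • q).2 • v := by
    have : x = (a + b) • x := by rw [hab, one_smul]
    conv_rhs => rw [this]
    simp only [Prod.fst_add, Prod.smul_fst, Prod.snd_add, Prod.smul_snd, smul_eq_mul]
    module
  rwa [e] at this

lemma slice_closed {T : Set E} (hT : IsClosed T) (x : E) : IsClosed (slice u v T x) := by
  have : slice u v T x = (fun p : ℝ × ℝ => x + p.1 • u + p.2 • v) ⁻¹' T := rfl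
  rw [this]
  exact hT.preimage (by fun_prop)

/-- The basic decomposition. -/
lemma decomp (hu : ‖u‖ = 1) (hv : ‖v‖ = 1) (huv : ⟪u, v⟫ = 0) (w : E) :
    w - ⟪u, w⟫ • u - ⟪v, w⟫ • v ∈ perp u v := by
  rw [mem_perp]
  have huu : ⟪u, u⟫ = 1 := by rw [real_inner_self_eq_norm_sq, hu]; norm_num
  have hvv : ⟪v, v⟫ = 1 := by rw [real_inner_self_eq_norm_sq, hv]; norm_num
  have hvu : ⟪v, u⟫ = 0 := by rw [real_inner_comm]; exact huv
  constructor
  · rw [inner_sub_right, inner_sub_right, inner_smul_right, inner_smul_right, huu, huv]; ring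
  · rw [inner_sub_right, inner_sub_right, inner_smul_right, inner_smul_right, hvv, hvu]; ring

/-- Points of `T` project to the slice at small scale. -/
lemma small_scale (hu : ‖u‖ = 1) (hv : ‖v‖ = 1) (huv : ⟪u, v⟫ = 0) {T : Set E} {x : E}
    (hx : Gen u v T x) (w : E) :
    ∀ᶠ ε : ℝ in 𝓝[>] 0, x - (ε / (1 - ε)) • (w - ⟪u, w⟫ • u - ⟪v, w⟫ • v) ∈ T := by
  set l : perp u v := ⟨w - ⟪u, w⟫ • u - ⟪v, w⟫ • v, decomp hu hv huv w⟩ with hl
  have hlim : Tendsto (fun ε : ℝ => (-(ε / (1 - ε))) • l) (𝓝[>] 0) (𝓝 0) := by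
    have hc : ContinuousAt (fun ε : ℝ => (-(ε / (1 - ε))) • l) 0 := by
      have h1 : ContinuousAt (fun ε : ℝ => -(ε / (1 - ε))) 0 := by
        apply ContinuousAt.neg
        apply ContinuousAt.div
        · fun_prop
        · fun_prop
        · simp
      exact h1.smul continuousAt_const
    have := hc.tendsto
    simp only [sub_zero, zero_div, neg_zero, zero_smul] at this
    exact this.mono_left nhdsWithin_le_nhds
  have h2 := hlim.eventually hx
  filter_upwards [h2] with ε hε
  have e : x + ((-(ε / (1 - ε))) • l : perp u v) = x - (ε / (1 - ε)) • (w - ⟪u, w⟫ • u - ⟪v, w⟫ • v) := by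
    rw [Submodule.coe_smul, neg_smul, ← sub_eq_add_neg]
  rwa [e] at hε

lemma combo_eq (x w : E) (ε : ℝ) (hε : 1 - ε ≠ 0) :
    (1 - ε) • (x - (ε / (1 - ε)) • (w - ⟪u, w⟫ • u - ⟪v, w⟫ • v)) + ε • (x + w) =
      x + (ε * ⟪u, w⟫) • u + (ε * ⟪v, w⟫) • v := by
  have h1 : (1 - ε) * (ε / (1 - ε)) = ε := by field_simp
  rw [smul_sub, smul_smul, h1]
  module

lemma eventually_lt_one : ∀ᶠ ε : ℝ in 𝓝[>] 0, ε < 1 := by
  have : ∀ᶠ ε : ℝ in 𝓝 0, ε < 1 := gt_mem_nhds (by norm_num)
  exact this.filter_mono nhdsWithin_le_nhds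

lemma mem_slice_small (hu : ‖u‖ = 1) (hv : ‖v‖ = 1) (huv : ⟪u, v⟫ = 0) {T : Set E}
    (hT : Convex ℝ T) {x : E} (hx : Gen u v T x) {y : E} (hy : y ∈ T) :
    ∀ᶠ ε : ℝ in 𝓝[>] 0, (ε * ⟪u, y - x⟫, ε * ⟪v, y - x⟫) ∈ slice u v T x := by
  filter_upwards [small_scale hu hv huv hx (y - x), eventually_lt_one, self_mem_nhdsWithin] with ε h1 h2 h3
  replace h3 : 0 < ε := h3
  have h4 : 1 - ε ≠ 0 := by linarith
  have := hT h1 hy (a := 1 - ε) (b := ε) (by linarith) h3.le (by ring)
  have e := combo_eq (u := u) (v := v) x (y - x) ε h4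
  rw [add_sub_cancel] at e
  rw [e] at this
  exact this

lemma interior_slice_small (hu : ‖u‖ = 1) (hv : ‖v‖ = 1) (huv : ⟪u, v⟫ = 0) {T : Set E}
    (hT : Convex ℝ T) {x : E} (hx : Gen u v T x) {y : E} (hy : y ∈ interior T) :
    ∀ᶠ ε : ℝ in 𝓝[>] 0, x + (ε * ⟪u, y - x⟫) • u + (ε * ⟪v, y - x⟫) • v ∈ interior T := by
  filter_upwards [small_scale hu hv huv hx (y - x), eventually_lt_one, self_mem_nhdsWithin] with ε h1 h2 h3
  replace h3 : 0 < ε := h3
  have h4 : 1 - ε ≠ 0 := by linarith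
  have := hT.combo_self_interior_mem_interior h1 hy (a := 1 - ε) (b := ε) (by linarith) h3 (by ring)
  have e := combo_eq (u := u) (v := v) x (y - x) ε h4
  rw [add_sub_cancel] at e
  rwa [e] at this

lemma exists_slice_interior (hu : ‖u‖ = 1) (hv : ‖v‖ = 1) (huv : ⟪u, v⟫ = 0) {T : Set E}
    (hT : Convex ℝ T) (hint : (interior T).Nonempty) {x : E} (hx : Gen u v T x) :
    ∃ q : ℝ × ℝ, x + q.1 • u + q.2 • v ∈ interior T := by
  obtain ⟨y, hy⟩ := hint
  obtain ⟨ε, hε⟩ := (interior_slice_small hu hv huv hT hx hy).exists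
  exact ⟨(ε * ⟪u, y - x⟫, ε * ⟪v, y - x⟫), hε⟩

lemma slice_of_interior {T : Set E} {x : E} {q : ℝ × ℝ} (h : x + q.1 • u + q.2 • v ∈ interior T) :
    q ∈ interior (slice u v T x) := by
  rw [mem_interior]
  refine ⟨(fun p : ℝ × ℝ => x + p.1 • u + p.2 • v) ⁻¹' interior T, fun p hp => interior_subset (s := T) hp,
    isOpen_interior.preimage (by fun_prop), h⟩

lemma slice_int_ne (hu : ‖u‖ = 1) (hv : ‖v‖ = 1) (huv : ⟪u, v⟫ = 0) {T : Set E}
    (hT : Convex ℝ T) (hint : (interior T).Nonempty) {x : E} (hx : Gen u v T x) :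
    (interior (slice u v T x)).Nonempty := by
  obtain ⟨q, hq⟩ := exists_slice_interior hu hv huv hT hint hx
  exact ⟨q, slice_of_interior hq⟩

/-- In a nonempty open set of points of the slice one finds points of the interior of `T`. -/
lemma slice_dense (hu : ‖u‖ = 1) (hv : ‖v‖ = 1) (huv : ⟪u, v⟫ = 0) {T : Set E}
    (hT : Convex ℝ T) (hint : (interior T).Nonempty) {x : E} (hx : Gen u v T x)
    {U : Set (ℝ × ℝ)} (hU : IsOpen U) (hne : U.Nonempty) (hUs : U ⊆ slice u v T x) :
    ∃ p ∈ U, x + p.1 • u + p.2 • v ∈ interior T := by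
  obtain ⟨q, hq⟩ := exists_slice_interior hu hv huv hT hint hx
  obtain ⟨p, hp⟩ := hne
  have hc : ContinuousAt (fun t : ℝ => (1 - t) • p + t • q) 0 := by
    apply Continuous.continuousAt; fun_prop
  have h1 : ∀ᶠ t : ℝ in 𝓝 0, (1 - t) • p + t • q ∈ U := by
    apply hc.eventually_mem
    simpa using hU.mem_nhds hp
  obtain ⟨t, h1, h2, h3⟩ := ((h1.filter_mono (nhdsWithin_le_nhds (s := Ioi (0 : ℝ)))).and
    (eventually_lt_one.and self_mem_nhdsWithin)).exists
  replace h3 : 0 < t := h3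
  refine ⟨_, h1, ?_⟩
  have := hT.combo_self_interior_mem_interior (hUs hp) hq (a := 1 - t) (b := t) (by linarith) h3 (by ring)
  have e : (1 - t) • (x + p.1 • u + p.2 • v) + t • (x + q.1 • u + q.2 • v) =
      x + ((1 - t) • p + t • q).1 • u + ((1 - t) • p + t • q).2 • v := by
    simp only [Prod.fst_add, Prod.smul_fst, Prod.snd_add, Prod.smul_snd, smul_eq_mul]
    module
  rwa [e] at this

lemma slice_disjoint (hu : ‖u‖ = 1) (hv : ‖v‖ = 1) (huv : ⟪u, v⟫ = 0) {T T' : Set E}
    (hT : Convex ℝ T) (hint : (interior T).Nonempty) (hT' : Convex ℝ T') (hint' : (interior T').Nonempty)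
    {x : E} (hx : Gen u v T x) (hx' : Gen u v T' x) (hd : Disjoint (interior T) (interior T')) :
    Disjoint (interior (slice u v T x)) (interior (slice u v T' x)) := by
  rw [Set.disjoint_iff_inter_eq_empty]
  by_contra hne
  rw [← Ne, ← Set.nonempty_iff_ne_empty] at hne
  obtain ⟨p, hp, hpT⟩ := slice_dense hu hv huv hT hint hx (isOpen_interior.inter isOpen_interior) hne
    (fun q hq => interior_subset hq.1)
  have hopen : IsOpen ((interior (slice u v T x) ∩ interior (slice u v T' x)) ∩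
      (fun p : ℝ × ℝ => x + p.1 • u + p.2 • v) ⁻¹' interior T) :=
    (isOpen_interior.inter isOpen_interior).inter (isOpen_interior.preimage (by fun_prop))
  obtain ⟨q, hq, hqT'⟩ := slice_dense hu hv huv hT' hint' hx' hopen ⟨p, hp, hpT⟩
    (fun q hq => interior_subset hq.1.2)
  exact Set.disjoint_left.1 hd hq.2 hqT'

lemma mem_face_face {T : Set E} {a b x : E} :
    x ∈ face (face T a) b ↔ x ∈ T ∧ (∀ y ∈ T, ⟪a, y⟫ ≤ ⟪a, x⟫) ∧ ∀ y ∈ T, ⟪a, y⟫ = ⟪a, x⟫ → ⟪b, y⟫ ≤ ⟪b, x⟫ := by
  unfold face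
  simp only [mem_ofPred_eq]
  constructor
  · rintro ⟨⟨h1, h2⟩, h3⟩
    refine ⟨h1, h2, fun y hy hyx => h3 y ⟨hy, fun z hz => ?_⟩⟩
    rw [hyx]; exact h2 z hz
  · rintro ⟨h1, h2, h3⟩
    refine ⟨⟨h1, h2⟩, fun y hy => h3 y hy.1 (le_antisymm (h2 y hy.1) (hy.2 x h1))⟩

/-- Membership in an iterated face is read off the slice. -/
lemma face_iff_lex (hu : ‖u‖ = 1) (hv : ‖v‖ = 1) (huv : ⟪u, v⟫ = 0) {T : Set E}
    (hT : Convex ℝ T) {x : E} (hx : Gen u v T x) {σ τ : ℝ} (hσ : σ = 1 ∨ σ = -1) :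
    x ∈ face (face T (σ • u)) (τ • v) ↔ Lex σ τ (slice u v T x) := by
  have huu : ⟪u, u⟫ = 1 := by rw [real_inner_self_eq_norm_sq, hu]; norm_num
  have hvv : ⟪v, v⟫ = 1 := by rw [real_inner_self_eq_norm_sq, hv]; norm_num
  have hvu : ⟪v, u⟫ = 0 := by rw [real_inner_comm]; exact huv
  have hσ0 : σ ≠ 0 := by rcases hσ with rfl | rfl <;> norm_num
  rw [mem_face_face]
  constructor
  · rintro ⟨_, h2, h3⟩ p hp
    have e1 : ⟪u, x + p.1 • u + p.2 • v⟫ = ⟪u, x⟫ + p.1 := by
      rw [inner_add_right, inner_add_right, inner_smul_right, inner_smul_right, huu, huv]; ring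
    have e2 : ⟪v, x + p.1 • u + p.2 • v⟫ = ⟪v, x⟫ + p.2 := by
      rw [inner_add_right, inner_add_right, inner_smul_right, inner_smul_right, hvv, hvu]; ring
    have h2' := h2 _ hp
    rw [real_inner_smul_left, real_inner_smul_left, e1, mul_add] at h2'
    rcases lt_or_eq_of_le (show σ * p.1 ≤ 0 by linarith) with h | h
    · exact Or.inl h
    · right
      have hp1 : p.1 = 0 := by
        rcases mul_eq_zero.1 h with h | h
        · exact absurd h hσ0
        · exact h
      refine ⟨hp1, ?_⟩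
      have h3' := h3 _ hp (by rw [real_inner_smul_left, real_inner_smul_left, e1, hp1, add_zero])
      rw [real_inner_smul_left, real_inner_smul_left, e2, mul_add] at h3'
      linarith
  · intro h
    have key : ∀ y ∈ T, σ * ⟪u, y - x⟫ < 0 ∨ (⟪u, y - x⟫ = 0 ∧ τ * ⟪v, y - x⟫ ≤ 0) := by
      intro y hy
      obtain ⟨ε, hε, hε0⟩ := ((mem_slice_small hu hv huv hT hx hy).and self_mem_nhdsWithin).exists
      replace hε0 : 0 < ε := hε0
      rcases h _ hε with h1 | ⟨h1, h2⟩
      · left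
        simp only at h1
        have : σ * (ε * ⟪u, y - x⟫) = ε * (σ * ⟪u, y - x⟫) := by ring
        rw [this] at h1
        by_contra hc
        push Not at hc
        have := mul_nonneg hε0.le hc
        linarith
      · right
        simp only at h1 h2
        refine ⟨by rcases mul_eq_zero.1 h1 with h | h; exacts [absurd h hε0.ne', h], ?_⟩
        have : τ * (ε * ⟪v, y - x⟫) = ε * (τ * ⟪v, y - x⟫) := by ring
        rw [this] at h2
        by_contra hc
        push Not at hc
        have := mul_pos hε0 hc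
        linarith
    refine ⟨hx.mem, fun y hy => ?_, fun y hy hyx => ?_⟩
    · rw [real_inner_smul_left, real_inner_smul_left]
      rcases key y hy with h | ⟨h, _⟩
      · rw [inner_sub_right, mul_sub] at h; linarith
      · rw [inner_sub_right] at h
        have : ⟪u, y⟫ = ⟪u, x⟫ := by linarith
        rw [this]
    · rw [real_inner_smul_left, real_inner_smul_left] at hyx
      have hux : ⟪u, y⟫ = ⟪u, x⟫ := mul_left_cancel₀ hσ0 hyx
      rw [real_inner_smul_left, real_inner_smul_left]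
      rcases key y hy with h | ⟨_, h⟩
      · rw [inner_sub_right, hux, sub_self, mul_zero] at h
        exact absurd h (lt_irrefl _)
      · rw [inner_sub_right, mul_sub] at h; linarith

lemma beltRidges_iff_pointed (hu : ‖u‖ = 1) (hv : ‖v‖ = 1) (huv : ⟪u, v⟫ = 0) {T : Set E}
    (hT : Convex ℝ T) {x : E} (hx : Gen u v T x) :
    x ∈ beltRidges T u v ↔ Pointed (slice u v T x) := by
  have huu : ⟪u, u⟫ = 1 := by rw [real_inner_self_eq_norm_sq, hu]; norm_num
  have hvv : ⟪v, v⟫ = 1 := by rw [real_inner_self_eq_norm_sq, hv]; norm_num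
  have hvu : ⟪v, u⟫ = 0 := by rw [real_inner_comm]; exact huv
  constructor
  · rintro ⟨_, p, q, h⟩
    refine ⟨(p, q), fun y hy hy0 => ?_⟩
    have e : x + y.1 • u + y.2 • v - x = y.1 • u + y.2 • v := by abel
    rcases h _ hy with h1 | ⟨h1, h2⟩
    · rw [e] at h1
      simp only [inner_add_left, inner_add_right, real_inner_smul_left, inner_smul_right, huu, hvv, huv,
        hvu] at h1
      simp only
      linarith
    · exfalso
      apply hy0
      rw [e] at h1 h2
      simp only [inner_add_right, inner_smul_right, huu, hvv, huv, hvu] at h1 h2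
      ext
      · simp only [Prod.fst_zero]; linarith
      · simp only [Prod.snd_zero]; linarith
  · rintro ⟨w, hw⟩
    refine ⟨hx.mem, w.1, w.2, fun y hy => ?_⟩
    by_cases h0 : ⟪u, y - x⟫ = 0 ∧ ⟪v, y - x⟫ = 0
    · exact Or.inr h0
    left
    obtain ⟨ε, hε, hε0⟩ := ((mem_slice_small hu hv huv hT hx hy).and self_mem_nhdsWithin).exists
    replace hε0 : 0 < ε := hε0
    have h1 := hw _ hε (by
      intro hc
      apply h0
      have c1 := congrArg Prod.fst hc
      have c2 := congrArg Prod.snd hc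
      simp only [Prod.fst_zero, Prod.snd_zero, mul_eq_zero] at c1 c2
      exact ⟨by rcases c1 with h | h; exacts [absurd h hε0.ne', h],
        by rcases c2 with h | h; exacts [absurd h hε0.ne', h]⟩)
    simp only at h1
    rw [inner_add_left, real_inner_smul_left, real_inner_smul_left]
    by_contra hc
    push Not at hc
    have := mul_nonneg hε0.le hc
    nlinarith

end Pool.Agent.H14Belt
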