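import Mathlib
import Pool.Agent.H14Belt.Slice

set_option autoImplicit false

open Set Filter Topology
open scoped RealInnerProductSpace

namespace Pool.Agent.H14Belt

variable {E : Type*} [NormedAddCommGroup E] [InnerProductSpace ℝ E] {u v : E}

open Classical in
lemma localTiling (hu : ‖u‖ = 1) (hv : ‖v‖ = 1) (huv : ⟪u, v⟫ = 0) {ι : Type*} {T : ι → Set E}
    (hconv : ∀ i, Convex ℝ (T i)) (hcl : ∀ i, IsClosed (T i)) (hint : ∀ i, (interior (T i)).Nonempty)
    (hdis : ∀ i j, i ≠ j → Disjoint (interior (T i)) (interior (T j))) {I : Finset ι} {x : E}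
    (hcov : (⋃ i ∈ I, T i) ∈ 𝓝 x) (hgen : ∀ i ∈ I, x ∈ T i → Gen u v (T i) x) :
    LocalTiling (I.filter fun i => x ∈ T i) (fun i => slice u v (T i) x) where
  conv i hi := slice_convex (hconv i) x
  closed i hi := slice_closed (hcl i) x
  zero i hi := by
    simp only [Finset.mem_filter] at hi
    simp only [slice, mem_ofPred_eq, Prod.fst_zero, Prod.snd_zero, zero_smul, add_zero]
    exact hi.2
  int_ne i hi := by
    simp only [Finset.mem_filter] at hi
    exact slice_int_ne hu hv huv (hconv i) (hint i) (hgen i hi.1 hi.2)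
  disj i hi j hj hij := by
    simp only [Finset.mem_filter] at hi hj
    exact slice_disjoint hu hv huv (hconv i) (hint i) (hconv j) (hint j) (hgen i hi.1 hi.2)
      (hgen j hj.1 hj.2) (hdis i j hij)
  cover := by
    have h1 : ∀ᶠ y in 𝓝 x, ∀ i ∈ I, x ∉ T i → y ∉ T i := by
      rw [Finset.eventually_all]
      intro i _
      by_cases hx : x ∈ T i
      · exact Eventually.of_forall fun y h => absurd hx h
      · filter_upwards [(hcl i).isOpen_compl.mem_nhds hx] with y hy _ using hy
    have h2 : ∀ᶠ y in 𝓝 x, ∃ i ∈ I.filter (fun i => x ∈ T i), y ∈ T i := by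
      filter_upwards [h1, hcov] with y hy1 hy2
      simp only [mem_iUnion, exists_prop] at hy2
      obtain ⟨i, hi, hyi⟩ := hy2
      refine ⟨i, Finset.mem_filter.2 ⟨hi, ?_⟩, hyi⟩
      by_contra hc
      exact hy1 i hi hc hyi
    have hc : ContinuousAt (fun p : ℝ × ℝ => x + p.1 • u + p.2 • v) 0 := by
      apply Continuous.continuousAt; fun_prop
    have h3 := hc.tendsto
    simp only [Prod.fst_zero, Prod.snd_zero, zero_smul, add_zero] at h3
    have h4 := h3.eventually h2
    filter_upwards [h4] with p hp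
    obtain ⟨i, hi, hpi⟩ := hp
    exact mem_biUnion hi hpi

/-- The iterated face. -/
def ridge (T : Set E) (a b : E) : Set E := face (face T a) b

lemma ridge_subset (T : Set E) (a b : E) : ridge T a b ⊆ T := fun _ h => h.1.1

open Classical in
lemma card_filter_ridge (hu : ‖u‖ = 1) (hv : ‖v‖ = 1) (huv : ⟪u, v⟫ = 0) {ι : Type*} {T : ι → Set E}
    (hconv : ∀ i, Convex ℝ (T i)) {I : Finset ι} {x : E}
    (hgen : ∀ i ∈ I, x ∈ T i → Gen u v (T i) x) {σ τ : ℝ} (hσ : σ = 1 ∨ σ = -1) :
    (I.filter fun i => x ∈ ridge (T i) (σ • u) (τ • v)).card =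
    ((I.filter fun i => x ∈ T i).filter fun i => Lex σ τ (slice u v (T i) x)).card := by
  rw [Finset.filter_filter]
  congr 1
  apply Finset.filter_congr
  intro i hi
  constructor
  · intro h
    have hx := ridge_subset _ _ _ h
    exact ⟨hx, (face_iff_lex hu hv huv (hconv i) (hgen i hi hx) hσ).1 h⟩
  · rintro ⟨hx, h⟩
    exact (face_iff_lex hu hv huv (hconv i) (hgen i hi hx) hσ).2 h

open Classical in
lemma pointwise_balance (hu : ‖u‖ = 1) (hv : ‖v‖ = 1) (huv : ⟪u, v⟫ = 0) {ι : Type*} {T : ι → Set E}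
    (hconv : ∀ i, Convex ℝ (T i)) (hcl : ∀ i, IsClosed (T i)) (hint : ∀ i, (interior (T i)).Nonempty)
    (hdis : ∀ i j, i ≠ j → Disjoint (interior (T i)) (interior (T j))) {I : Finset ι} {x : E}
    (hcov : (⋃ i ∈ I, T i) ∈ 𝓝 x) (hgen : ∀ i ∈ I, x ∈ T i → Gen u v (T i) x) :
    (I.filter fun i => x ∈ ridge (T i) u v).card + (I.filter fun i => x ∈ ridge (T i) (-u) (-v)).card =
    (I.filter fun i => x ∈ ridge (T i) u (-v)).card + (I.filter fun i => x ∈ ridge (T i) (-u) v).card := by
  have h := local_balance (localTiling hu hv huv hconv hcl hint hdis hcov hgen)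
  rw [← card_filter_ridge hu hv huv hconv hgen (Or.inl rfl), ← card_filter_ridge hu hv huv hconv hgen (Or.inr rfl),
    ← card_filter_ridge hu hv huv hconv hgen (Or.inl rfl), ← card_filter_ridge hu hv huv hconv hgen (Or.inr rfl)] at h
  simpa only [one_smul, neg_smul] using h

open Classical in
lemma pointwise_total (hu : ‖u‖ = 1) (hv : ‖v‖ = 1) (huv : ⟪u, v⟫ = 0) {ι : Type*} {T : ι → Set E}
    (hconv : ∀ i, Convex ℝ (T i)) (hcl : ∀ i, IsClosed (T i)) (hint : ∀ i, (interior (T i)).Nonempty)
    (hdis : ∀ i j, i ≠ j → Disjoint (interior (T i)) (interior (T j))) {I : Finset ι} {x : E}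
    (hcov : (⋃ i ∈ I, T i) ∈ 𝓝 x) (hgen : ∀ i ∈ I, x ∈ T i → Gen u v (T i) x) :
    (I.filter fun i => x ∈ beltRidges (T i) u v).card ≤
    3 * ((I.filter fun i => x ∈ ridge (T i) u v).card + (I.filter fun i => x ∈ ridge (T i) (-u) (-v)).card) := by
  have h := local_total (localTiling hu hv huv hconv hcl hint hdis hcov hgen)
  rw [← card_filter_ridge hu hv huv hconv hgen (Or.inl rfl), ← card_filter_ridge hu hv huv hconv hgen (Or.inr rfl)] at h
  have e : (I.filter fun i => x ∈ beltRidges (T i) u v).card =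
      ((I.filter fun i => x ∈ T i).filter fun i => Pointed (slice u v (T i) x)).card := by
    rw [Finset.filter_filter]
    congr 1
    apply Finset.filter_congr
    intro i hi
    constructor
    · intro h
      have hx : x ∈ T i := h.1
      exact ⟨hx, (beltRidges_iff_pointed hu hv huv (hconv i) (hgen i hi hx)).1 h⟩
    · rintro ⟨hx, h⟩
      exact (beltRidges_iff_pointed hu hv huv (hconv i) (hgen i hi hx)).2 h
  rw [e]
  simpa only [one_smul, neg_smul] using h

end Pool.Agent.H14Belt
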