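import Mathlib
import Pool.Agent.H14Belt.Local

set_option autoImplicit false

open Set Filter Topology MeasureTheory Module
open scoped RealInnerProductSpace

namespace Pool.Agent.H14Belt

variable {E : Type*} [NormedAddCommGroup E] [InnerProductSpace ℝ E] [FiniteDimensional ℝ E]
  [MeasurableSpace E] [BorelSpace E] {u v : E}

omit [MeasurableSpace E] [BorelSpace E] in
lemma finrank_perp (hu : ‖u‖ = 1) (hv : ‖v‖ = 1) (huv : ⟪u, v⟫ = 0) :
    finrank ℝ (perp u v) + 2 = finrank ℝ E := by
  have h1 := Submodule.finrank_add_finrank_orthogonal (Submodule.span ℝ {u, v})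
  have h2 : finrank ℝ (Submodule.span ℝ {u, v}) = 2 := by
    have hli : LinearIndependent ℝ ![u, v] := by
      have : Orthonormal ℝ ![u, v] := by
        rw [orthonormal_iff_ite]
        intro i j
        fin_cases i <;> fin_cases j <;> simp [huv, hu, hv, real_inner_comm u v]
      exact this.linearIndependent
    have := finrank_span_eq_card hli
    have hr : range ![u, v] = {u, v} := by
      ext w
      simp only [mem_range, Fin.exists_fin_two, mem_insert_iff, mem_singleton_iff]
      constructor
      · rintro (h | h)
        · left; exact h.symm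
        · right; exact h.symm
      · rintro (h | h)
        · left; exact h.symm
        · right; exact h.symm
    rw [hr] at this
    simpa using this
  unfold perp
  omega

/-- The points of a flat where a convex set is not generic form a null set. -/
lemma null_bad (x₀ : E) {T : Set E} (hT : Convex ℝ T) :
    (Measure.hausdorffMeasure (finrank ℝ (perp u v) : ℝ) : Measure E)
      {x | x - x₀ ∈ perp u v ∧ x ∈ T ∧ ¬ Gen u v T x} = 0 := by
  have hiso : Isometry (fun l : perp u v => x₀ + (l : E)) := by
    apply Isometry.of_dist_eq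
    intro a b
    simp [dist_eq_norm]
  set C : Set (perp u v) := {l | x₀ + (l : E) ∈ T} with hC
  have hCconv : Convex ℝ C := by
    intro a ha b hb s t hs ht hst
    have := hT ha hb hs ht hst
    simp only [hC, mem_ofPred_eq, Submodule.coe_add, Submodule.coe_smul] at this ⊢
    have e : s • (x₀ + (a : E)) + t • (x₀ + (b : E)) = x₀ + (s • (a : E) + t • (b : E)) := by
      have : x₀ = (s + t) • x₀ := by rw [hst, one_smul]
      conv_rhs => rw [this]
      module
    rwa [e] at this
  have hfr : (Measure.hausdorffMeasure (finrank ℝ (perp u v) : ℝ) : Measure (perp u v)) (frontier C) = 0 :=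
    hCconv.addHaar_frontier _
  have himg : (Measure.hausdorffMeasure (finrank ℝ (perp u v) : ℝ) : Measure E)
      ((fun l : perp u v => x₀ + (l : E)) '' frontier C) = 0 := by
    rw [hiso.hausdorffMeasure_image (Or.inl (by positivity))]
    exact hfr
  refine measure_mono_null ?_ himg
  rintro x ⟨hx, hxT, hxg⟩
  refine ⟨⟨x - x₀, hx⟩, ?_, by simp⟩
  have hmem : (⟨x - x₀, hx⟩ : perp u v) ∈ C := by simpa [hC] using hxT
  refine ⟨subset_closure hmem, fun hint => hxg ?_⟩
  rw [mem_interior_iff_mem_nhds] at hint
  unfold Gen
  have hc : Tendsto (fun l : perp u v => (⟨x - x₀, hx⟩ : perp u v) + l) (𝓝 0) (𝓝 ⟨x - x₀, hx⟩) := by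
    have : ContinuousAt (fun l : perp u v => (⟨x - x₀, hx⟩ : perp u v) + l) 0 := by fun_prop
    simpa using this.tendsto
  filter_upwards [hc hint] with l hl
  have hl' : x₀ + ((⟨x - x₀, hx⟩ + l : perp u v) : E) ∈ T := hl
  have e : x₀ + ((⟨x - x₀, hx⟩ + l : perp u v) : E) = x + l := by
    rw [Submodule.coe_add]
    simp only
    abel
  rwa [e] at hl'

end Pool.Agent.H14Belt
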