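import Mathlib
import Pool.Agent.H14Belt.Generic

set_option autoImplicit false

open Set Filter Topology MeasureTheory Module
open scoped RealInnerProductSpace ENNReal

namespace Pool.Agent.H14Belt

open Classical in
lemma two_sum_le {α ι : Type*} [MeasurableSpace α] {ν : Measure α} {I : Finset ι} {F G F' G' : ι → Set α}
    (hF : ∀ i ∈ I, MeasurableSet (F i)) (hG : ∀ i ∈ I, MeasurableSet (G i))
    (hF' : ∀ i ∈ I, MeasurableSet (F' i)) (hG' : ∀ i ∈ I, MeasurableSet (G' i)) (c : ℕ)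
    (h : ∀ᵐ x ∂ν, (I.filter fun i => x ∈ F i).card + (I.filter fun i => x ∈ G i).card ≤
      c * ((I.filter fun i => x ∈ F' i).card + (I.filter fun i => x ∈ G' i).card)) :
    ∑ i ∈ I, ν (F i) + ∑ i ∈ I, ν (G i) ≤ c * (∑ i ∈ I, ν (F' i) + ∑ i ∈ I, ν (G' i)) := by
  have key : ∀ A : ι → Set α, (∀ i ∈ I, MeasurableSet (A i)) →
      ∑ i ∈ I, ν (A i) = ∫⁻ x, ((I.filter fun i => x ∈ A i).card : ℝ≥0∞) ∂ν := by
    intro A hA
    have : ∀ x, ((I.filter fun i => x ∈ A i).card : ℝ≥0∞) = ∑ i ∈ I, (A i).indicator (fun _ => (1 : ℝ≥0∞)) x := by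
      intro x
      rw [Finset.card_filter, Nat.cast_sum]
      apply Finset.sum_congr rfl
      intro i _
      by_cases hx : x ∈ A i <;> simp [hx]
    simp_rw [this]
    rw [lintegral_finsetSum' _ (fun i hi => (aemeasurable_const.indicator (hA i hi)))]
    apply Finset.sum_congr rfl
    intro i hi
    rw [lintegral_indicator (hA i hi)]
    simp
  have hmeas : ∀ A : ι → Set α, (∀ i ∈ I, MeasurableSet (A i)) →
      Measurable (fun x => ((I.filter fun i => x ∈ A i).card : ℝ≥0∞)) := by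
    intro A hA
    have : (fun x => ((I.filter fun i => x ∈ A i).card : ℝ≥0∞)) =
        fun x => ∑ i ∈ I, (A i).indicator (fun _ => (1 : ℝ≥0∞)) x := by
      funext x
      rw [Finset.card_filter, Nat.cast_sum]
      apply Finset.sum_congr rfl
      intro i _
      by_cases hx : x ∈ A i <;> simp [hx]
    rw [this]
    exact Finset.measurable_fun_sum _ (fun i hi => measurable_const.indicator (hA i hi))
  rw [key F hF, key G hG, key F' hF', key G' hG', ← lintegral_add_left (hmeas F hF),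
    ← lintegral_add_left (hmeas F' hF'), ← lintegral_const_mul' _ _ (ENNReal.natCast_ne_top c)]
  apply lintegral_mono_ae
  filter_upwards [h] with x hx
  have : (((I.filter fun i => x ∈ F i).card + (I.filter fun i => x ∈ G i).card : ℕ) : ℝ≥0∞) ≤
      ((c * ((I.filter fun i => x ∈ F' i).card + (I.filter fun i => x ∈ G' i).card) : ℕ) : ℝ≥0∞) := by
    exact_mod_cast hx
  push_cast at this
  exact this

variable {E : Type*} [NormedAddCommGroup E] [InnerProductSpace ℝ E] [FiniteDimensional ℝ E]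
  [MeasurableSpace E] [BorelSpace E] {u v : E}

/-- The flat through `x₀` orthogonal to `u` and `v`. -/
def flat (u v x₀ : E) : Set E := {x | x - x₀ ∈ perp u v}

omit [FiniteDimensional ℝ E] [MeasurableSpace E] [BorelSpace E] in
lemma flat_closed [FiniteDimensional ℝ E] (x₀ : E) : IsClosed (flat u v x₀) := by
  have : flat u v x₀ = (fun x => x - x₀) ⁻¹' (perp u v : Set E) := rfl
  rw [this]
  exact (Submodule.closed_of_finiteDimensional _).preimage (by fun_prop)

/-- The measure used for the integration. -/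
noncomputable def nu (u v : E) (B : Set E) (X : Finset E) : Measure E :=
  (Measure.hausdorffMeasure (finrank ℝ (perp u v) : ℝ) : Measure E).restrict (B ∩ ⋃ x₀ ∈ X, flat u v x₀)

lemma flats_measurable (X : Finset E) : MeasurableSet (⋃ x₀ ∈ X, flat u v x₀) := by
  apply X.measurableSet_biUnion
  intro x₀ _
  exact (flat_closed x₀).measurableSet

omit [FiniteDimensional ℝ E] in
lemma nu_apply {B : Set E} {X : Finset E} {A : Set E} (hA : MeasurableSet A)
    (hX : A ⊆ ⋃ x₀ ∈ X, flat u v x₀) :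
    nu u v B X A = (Measure.hausdorffMeasure (finrank ℝ (perp u v) : ℝ) : Measure E) (A ∩ B) := by
  rw [nu, Measure.restrict_apply hA]
  congr 1
  ext x
  simp only [mem_inter_iff]
  constructor
  · rintro ⟨h1, h2, _⟩; exact ⟨h1, h2⟩
  · rintro ⟨h1, h2⟩; exact ⟨h1, h2, hX h1⟩

lemma ae_gen {ι : Type*} {T : ι → Set E} (hconv : ∀ i, Convex ℝ (T i)) {I : Finset ι} {B : Set E}
    (hB : MeasurableSet B) (X : Finset E) :
    ∀ᵐ x ∂(nu u v B X), x ∈ B ∧ ∀ i ∈ I, x ∈ T i → Gen u v (T i) x := by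
  have h1 : ∀ᵐ x ∂(nu u v B X), x ∈ B ∩ ⋃ x₀ ∈ X, flat u v x₀ :=
    ae_restrict_mem (hB.inter (flats_measurable X))
  have h2 : ∀ᵐ x ∂(nu u v B X), ∀ x₀ ∈ X, ∀ i ∈ I, ¬ (x - x₀ ∈ perp u v ∧ x ∈ T i ∧ ¬ Gen u v (T i) x) := by
    rw [Finset.eventually_all]
    intro x₀ _
    rw [Finset.eventually_all]
    intro i _
    rw [ae_iff]
    simp only [not_not]
    have := null_bad (u := u) (v := v) x₀ (hconv i)
    exact le_antisymm ((Measure.restrict_apply_le _ _).trans this.le) bot_le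
  filter_upwards [h1, h2] with x hx1 hx2
  refine ⟨hx1.1, fun i hi hxi => ?_⟩
  obtain ⟨hx3, hx4⟩ := hx1
  simp only [mem_iUnion, exists_prop] at hx4
  obtain ⟨x₀, hx₀, hx5⟩ := hx4
  by_contra hc
  exact hx2 x₀ hx₀ i hi ⟨hx5, hxi, hc⟩

end Pool.Agent.H14Belt
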