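import Mathlib
import Pool.Agent.H14Belt.Sum

set_option autoImplicit false

open Set Filter Topology MeasureTheory Module Metric
open scoped RealInnerProductSpace ENNReal

namespace Pool.Agent.H14Belt

lemma limit_arg (n : ℕ) (D : ℝ) (a b : ℝ≥0∞)
    (h : ∀ R : ℝ, D < R → ENNReal.ofReal ((R - D) ^ n) * a ≤ ENNReal.ofReal ((R + 1 + D) ^ n) * b) :
    a ≤ b := by
  have hlim : Tendsto (fun R : ℝ => ((R + 1 + D) / (R - D)) ^ n) atTop (𝓝 1) := by
    have h1 : Tendsto (fun R : ℝ => (R + 1 + D) / (R - D)) atTop (𝓝 1) := by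
      have h2 : Tendsto (fun R : ℝ => 1 + (1 + 2 * D) / (R - D)) atTop (𝓝 (1 + 0)) := by
        apply Tendsto.const_add
        apply Tendsto.div_atTop tendsto_const_nhds
        exact tendsto_atTop_add_const_right _ _ tendsto_id
      rw [add_zero] at h2
      refine h2.congr' ?_
      filter_upwards [eventually_gt_atTop D] with R hR
      have : R - D ≠ 0 := by linarith
      field_simp
      ring
    simpa using h1.pow n
  have hlim2 : Tendsto (fun R : ℝ => ENNReal.ofReal (((R + 1 + D) / (R - D)) ^ n) * b) atTop (𝓝 (1 * b)) := by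
    apply ENNReal.Tendsto.mul_const
    · have := ENNReal.tendsto_ofReal hlim
      rwa [ENNReal.ofReal_one] at this
    · left; norm_num
  rw [one_mul] at hlim2
  apply ge_of_tendsto hlim2
  filter_upwards [eventually_gt_atTop D] with R hR
  have hpos : 0 < R - D := by linarith
  have hpn : 0 < (R - D) ^ n := by positivity
  have h1 := h R hR
  have h2 : ENNReal.ofReal ((R + 1 + D) ^ n) = ENNReal.ofReal ((R - D) ^ n) *
      ENNReal.ofReal (((R + 1 + D) / (R - D)) ^ n) := by
    rw [← ENNReal.ofReal_mul hpn.le, div_pow]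
    congr 1
    field_simp
  rw [h2, mul_assoc] at h1
  exact (ENNReal.mul_le_mul_iff_right (by simpa using hpn) ENNReal.ofReal_ne_top).1 h1

variable {E : Type*} [NormedAddCommGroup E] [InnerProductSpace ℝ E] [FiniteDimensional ℝ E]
  [MeasurableSpace E] [BorelSpace E] {u v : E}

/-- A countable-free formulation of a tiling by convex bodies of equal volume and bounded diameter. -/
structure BoundedTiling {ι : Type*} (T : ι → Set E) (V : ℝ≥0∞) (D : ℝ) : Prop where
  conv : ∀ i, Convex ℝ (T i)
  closed : ∀ i, IsClosed (T i)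
  int_ne : ∀ i, (interior (T i)).Nonempty
  disj : ∀ i j, i ≠ j → Disjoint (interior (T i)) (interior (T j))
  cover : (⋃ i, T i) = univ
  vol : ∀ i, volume (T i) = V
  V_pos : V ≠ 0
  V_fin : V ≠ ⊤
  diam : ∀ i, ∀ x ∈ T i, ∀ y ∈ T i, dist x y ≤ D

lemma BoundedTiling.card_mul_le {ι : Type*} {T : ι → Set E} {V : ℝ≥0∞} {D : ℝ} (h : BoundedTiling T V D)
    (I : Finset ι) {r : ℝ} (hI : ∀ i ∈ I, T i ⊆ closedBall 0 r) :
    (I.card : ℝ≥0∞) * V ≤ volume (closedBall (0 : E) r) := by
  have h1 : volume (⋃ i ∈ I, interior (T i)) = ∑ i ∈ I, volume (interior (T i)) := by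
    apply measure_biUnion_finset
    · intro i _ j _ hij
      exact h.disj i j hij
    · intro i _
      exact isOpen_interior.measurableSet
  have h2 : ∀ i, volume (interior (T i)) = V := by
    intro i
    have := (h.conv i).addHaar_frontier volume
    rw [← h.vol i]
    apply le_antisymm (measure_mono interior_subset)
    have hsub : T i ⊆ interior (T i) ∪ frontier (T i) := by
      intro x hx
      by_cases hxi : x ∈ interior (T i)
      · exact Or.inl hxi
      · exact Or.inr ⟨subset_closure hx, hxi⟩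
    calc volume (T i) ≤ volume (interior (T i) ∪ frontier (T i)) := measure_mono hsub
      _ ≤ volume (interior (T i)) + volume (frontier (T i)) := measure_union_le _ _
      _ = volume (interior (T i)) := by rw [this, add_zero]
  simp only [h2, Finset.sum_const, nsmul_eq_mul] at h1
  rw [← h1]
  apply measure_mono
  intro x hx
  simp only [mem_iUnion, exists_prop] at hx
  obtain ⟨i, hi, hxi⟩ := hx
  exact hI i hi (interior_subset hxi)

lemma BoundedTiling.subset_ball {ι : Type*} {T : ι → Set E} {V : ℝ≥0∞} {D : ℝ} (h : BoundedTiling T V D)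
    {i : ι} {r : ℝ} (hi : (T i ∩ closedBall 0 r).Nonempty) : T i ⊆ closedBall 0 (r + D) := by
  obtain ⟨x, hx, hxr⟩ := hi
  intro y hy
  rw [mem_closedBall] at hxr ⊢
  have := h.diam i y hy x hx
  have := dist_triangle y x 0
  linarith

lemma BoundedTiling.finite {ι : Type*} {T : ι → Set E} {V : ℝ≥0∞} {D : ℝ} (h : BoundedTiling T V D)
    (r : ℝ) : {i | (T i ∩ closedBall 0 r).Nonempty}.Finite := by
  by_contra hinf
  have hfin : volume (closedBall (0 : E) (r + D)) ≠ ⊤ := measure_closedBall_lt_top.ne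
  obtain ⟨n, hn⟩ : ∃ n : ℕ, volume (closedBall (0 : E) (r + D)) < n * V := by
    obtain ⟨n, hn⟩ := ENNReal.exists_nat_mul_gt h.V_pos hfin
    exact ⟨n, hn⟩
  obtain ⟨I, hI, hIc⟩ := Set.Infinite.exists_subset_card_eq hinf n
  have := h.card_mul_le I (r := r + D) (fun i hi => h.subset_ball (hI hi))
  rw [hIc] at this
  exact absurd this (not_le.2 hn)

/-- The counting argument: a local inequality implies the inequality for each tile. -/
lemma BoundedTiling.main {ι : Type*} {T : ι → Set E} {V : ℝ≥0∞} {D : ℝ} (h : BoundedTiling T V D)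
    {F G F' G' : ι → Set E} (hF : ∀ i, F i ⊆ T i) (hG : ∀ i, G i ⊆ T i)
    (hFm : ∀ i, MeasurableSet (F i)) (hGm : ∀ i, MeasurableSet (G i))
    (hF'm : ∀ i, MeasurableSet (F' i)) (hG'm : ∀ i, MeasurableSet (G' i))
    (hflat : ∀ i, ∃ X : Finset E, F i ∪ G i ∪ F' i ∪ G' i ⊆ ⋃ x₀ ∈ X, flat u v x₀)
    (c : ℕ) (a b : ℝ≥0∞)
    (ha : ∀ i, (Measure.hausdorffMeasure (finrank ℝ (perp u v) : ℝ) : Measure E) (F i) +
      (Measure.hausdorffMeasure (finrank ℝ (perp u v) : ℝ) : Measure E) (G i) = a)
    (hb : ∀ i, (Measure.hausdorffMeasure (finrank ℝ (perp u v) : ℝ) : Measure E) (F' i) +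
      (Measure.hausdorffMeasure (finrank ℝ (perp u v) : ℝ) : Measure E) (G' i) = b)
    (hloc : ∀ (I : Finset ι) (x : E), (⋃ i ∈ I, T i) ∈ 𝓝 x → (∀ i ∈ I, x ∈ T i → Gen u v (T i) x) →
      open Classical in (I.filter fun i => x ∈ F i).card + (I.filter fun i => x ∈ G i).card ≤
      c * ((I.filter fun i => x ∈ F' i).card + (I.filter fun i => x ∈ G' i).card)) :
    a ≤ c * b := by
  classical
  apply limit_arg (finrank ℝ E) D
  intro R hR
  by_cases hD : 0 ≤ D
  swap
  · -- then there is no tile at all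
    exfalso
    have : (0 : E) ∈ (⋃ i, T i) := by rw [h.cover]; trivial
    simp only [mem_iUnion] at this
    obtain ⟨i, hi⟩ := this
    have := h.diam i 0 hi 0 hi
    rw [dist_self] at this
    exact hD this
  set I : Finset ι := (h.finite (R + 1)).toFinset with hI
  set J : Finset ι := I.filter fun i => T i ⊆ closedBall 0 R with hJ
  have hIc : (I.card : ℝ≥0∞) * V ≤ volume (closedBall (0 : E) (R + 1 + D)) := by
    apply h.card_mul_le I
    intro i hi
    apply h.subset_ball
    simpa [hI] using hi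
  have hJc : volume (closedBall (0 : E) (R - D)) ≤ (J.card : ℝ≥0∞) * V := by
    have hsub : closedBall (0 : E) (R - D) ⊆ ⋃ i ∈ J, T i := by
      intro x hx
      have hx2 : x ∈ ⋃ i, T i := by rw [h.cover]; trivial
      simp only [mem_iUnion] at hx2
      obtain ⟨i, hi⟩ := hx2
      have hTi : T i ⊆ closedBall 0 R := by
        have := h.subset_ball (i := i) (r := R - D) ⟨x, hi, hx⟩
        rwa [sub_add_cancel] at this
      simp only [mem_iUnion, exists_prop]
      refine ⟨i, ?_, hi⟩
      rw [hJ, Finset.mem_filter]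
      refine ⟨?_, hTi⟩
      simp only [hI, Finite.mem_toFinset, mem_ofPred_eq]
      exact ⟨x, hi, closedBall_subset_closedBall (by linarith) hx⟩
    calc volume (closedBall (0 : E) (R - D)) ≤ volume (⋃ i ∈ J, T i) := measure_mono hsub
      _ ≤ ∑ i ∈ J, volume (T i) := measure_biUnion_finset_le _ _
      _ = (J.card : ℝ≥0∞) * V := by simp [h.vol]
  -- the integration
  choose X hX using hflat
  set XX : Finset E := I.biUnion X with hXX
  have hXX' : ∀ i ∈ I, F i ∪ G i ∪ F' i ∪ G' i ⊆ ⋃ x₀ ∈ XX, flat u v x₀ := by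
    intro i hi
    refine (hX i).trans ?_
    apply biUnion_subset_biUnion_left
    intro x hx
    exact Finset.mem_biUnion.2 ⟨i, hi, hx⟩
  have hae : ∀ᵐ x ∂(nu u v (closedBall (0 : E) R) XX),
      (I.filter fun i => x ∈ F i).card + (I.filter fun i => x ∈ G i).card ≤
      c * ((I.filter fun i => x ∈ F' i).card + (I.filter fun i => x ∈ G' i).card) := by
    filter_upwards [ae_gen (u := u) (v := v) h.conv (I := I) (B := closedBall (0 : E) R)
      isClosed_closedBall.measurableSet XX] with x hx
    apply hloc I x _ hx.2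
    have hball : ball x 1 ⊆ ⋃ i ∈ I, T i := by
      intro y hy
      have hy2 : y ∈ ⋃ i, T i := by rw [h.cover]; trivial
      simp only [mem_iUnion] at hy2
      obtain ⟨i, hi⟩ := hy2
      simp only [mem_iUnion, exists_prop]
      refine ⟨i, ?_, hi⟩
      simp only [hI, Finite.mem_toFinset, mem_ofPred_eq]
      refine ⟨y, hi, ?_⟩
      rw [mem_closedBall]
      have h1 := dist_triangle y x 0
      have h2 := mem_closedBall.1 hx.1
      have h3 := mem_ball.1 hy
      linarith
    exact Filter.mem_of_superset (ball_mem_nhds x one_pos) hball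
  have hsum := two_sum_le (fun i _ => hFm i) (fun i _ => hGm i) (fun i _ => hF'm i) (fun i _ => hG'm i) c hae
  have hFa : ∀ i ∈ I, nu u v (closedBall (0 : E) R) XX (F i) =
      (Measure.hausdorffMeasure (finrank ℝ (perp u v) : ℝ) : Measure E) (F i ∩ closedBall 0 R) := fun i hi =>
    nu_apply (hFm i) (fun x hx => hXX' i hi (Or.inl (Or.inl (Or.inl hx))))
  have hGa : ∀ i ∈ I, nu u v (closedBall (0 : E) R) XX (G i) =
      (Measure.hausdorffMeasure (finrank ℝ (perp u v) : ℝ) : Measure E) (G i ∩ closedBall 0 R) := fun i hi =>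
    nu_apply (hGm i) (fun x hx => hXX' i hi (Or.inl (Or.inl (Or.inr hx))))
  have hF'a : ∀ i ∈ I, nu u v (closedBall (0 : E) R) XX (F' i) =
      (Measure.hausdorffMeasure (finrank ℝ (perp u v) : ℝ) : Measure E) (F' i ∩ closedBall 0 R) := fun i hi =>
    nu_apply (hF'm i) (fun x hx => hXX' i hi (Or.inl (Or.inr hx)))
  have hG'a : ∀ i ∈ I, nu u v (closedBall (0 : E) R) XX (G' i) =
      (Measure.hausdorffMeasure (finrank ℝ (perp u v) : ℝ) : Measure E) (G' i ∩ closedBall 0 R) := fun i hi =>
    nu_apply (hG'm i) (fun x hx => hXX' i hi (Or.inr hx))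
  have hlow : (J.card : ℝ≥0∞) * a ≤ ∑ i ∈ I, nu u v (closedBall (0 : E) R) XX (F i) +
      ∑ i ∈ I, nu u v (closedBall (0 : E) R) XX (G i) := by
    rw [← Finset.sum_add_distrib]
    calc (J.card : ℝ≥0∞) * a = ∑ i ∈ J, a := by simp
      _ ≤ ∑ i ∈ J, (nu u v (closedBall (0 : E) R) XX (F i) + nu u v (closedBall (0 : E) R) XX (G i)) := by
          apply Finset.sum_le_sum
          intro i hi
          rw [hJ, Finset.mem_filter] at hi
          rw [hFa i hi.1, hGa i hi.1, inter_eq_left.2 ((hF i).trans hi.2), inter_eq_left.2 ((hG i).trans hi.2),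
            ha i]
      _ ≤ _ := Finset.sum_le_sum_of_subset (Finset.filter_subset _ _)
  have hupp : ∑ i ∈ I, nu u v (closedBall (0 : E) R) XX (F' i) +
      ∑ i ∈ I, nu u v (closedBall (0 : E) R) XX (G' i) ≤ (I.card : ℝ≥0∞) * b := by
    rw [← Finset.sum_add_distrib]
    calc _ ≤ ∑ i ∈ I, b := by
          apply Finset.sum_le_sum
          intro i hi
          rw [hF'a i hi, hG'a i hi, ← hb i]
          exact add_le_add (measure_mono inter_subset_left) (measure_mono inter_subset_left)
      _ = _ := by simp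
  have hfinal : (J.card : ℝ≥0∞) * a ≤ c * ((I.card : ℝ≥0∞) * b) :=
    hlow.trans (hsum.trans (mul_le_mul_right hupp _))
  -- conclude
  have hv1 : volume (closedBall (0 : E) (R - D)) = ENNReal.ofReal ((R - D) ^ finrank ℝ E) *
      volume (closedBall (0 : E) 1) := Measure.addHaar_closedBall' _ _ (by linarith)
  have hv2 : volume (closedBall (0 : E) (R + 1 + D)) = ENNReal.ofReal ((R + 1 + D) ^ finrank ℝ E) *
      volume (closedBall (0 : E) 1) := Measure.addHaar_closedBall' _ _ (by linarith)
  rw [hv2] at hIc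
  rw [hv1] at hJc
  set W := volume (closedBall (0 : E) 1) with hW
  have hW0 : W ≠ 0 := (measure_closedBall_pos volume (0 : E) one_pos).ne'
  have hWt : W ≠ ⊤ := measure_closedBall_lt_top.ne
  have hVW : V * (ENNReal.ofReal ((R - D) ^ finrank ℝ E) * W * a) ≤
      V * (ENNReal.ofReal ((R + 1 + D) ^ finrank ℝ E) * W * (c * b)) := by
    calc V * (ENNReal.ofReal ((R - D) ^ finrank ℝ E) * W * a) ≤ V * ((J.card * V) * a) := by gcongr
      _ = V * V * (J.card * a) := by ring
      _ ≤ V * V * (c * (I.card * b)) := by gcongr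
      _ = V * ((I.card * V) * (c * b)) := by ring
      _ ≤ V * (ENNReal.ofReal ((R + 1 + D) ^ finrank ℝ E) * W * (c * b)) := by gcongr
  have h1 := (ENNReal.mul_le_mul_iff_right h.V_pos h.V_fin).1 hVW
  have h2 : W * (ENNReal.ofReal ((R - D) ^ finrank ℝ E) * a) ≤
      W * (ENNReal.ofReal ((R + 1 + D) ^ finrank ℝ E) * (c * b)) := by
    calc _ = ENNReal.ofReal ((R - D) ^ finrank ℝ E) * W * a := by ring
      _ ≤ _ := h1
      _ = _ := by ring
  exact (ENNReal.mul_le_mul_iff_right hW0 hWt).1 h2

end Pool.Agent.H14Belt
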