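import Mathlib
import Pool.Agent.H14Belt.Global

set_option autoImplicit false

open Set Filter Topology MeasureTheory Module Metric
open scoped RealInnerProductSpace ENNReal

namespace Pool.Agent.H14Belt

variable {E : Type*} [NormedAddCommGroup E] [InnerProductSpace ℝ E]

/-- The motion `x ↦ t + s x`. -/
def mot (t : E) (s : ℝ) (x : E) : E := t + s • x

lemma mot_isometry (t : E) {s : ℝ} (hs : s = 1 ∨ s = -1) : Isometry (mot t s) := by
  apply Isometry.of_dist_eq
  intro a b
  have hs' : |s| = 1 := by rcases hs with rfl | rfl <;> simp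
  simp only [mot, dist_eq_norm, add_sub_add_left_eq_sub, ← smul_sub, norm_smul, Real.norm_eq_abs, hs',
    one_mul]

lemma inner_mot (a t : E) (s : ℝ) (x : E) : ⟪a, mot t s x⟫ = ⟪a, t⟫ + ⟪s • a, x⟫ := by
  rw [mot, inner_add_right, inner_smul_right, real_inner_smul_left]

lemma face_mot (P : Set E) (t : E) (s : ℝ) (a : E) :
    face (mot t s '' P) a = mot t s '' (face P (s • a)) := by
  ext x
  simp only [face, mem_ofPred_eq, mem_image]
  constructor
  · rintro ⟨⟨y, hy, rfl⟩, h⟩
    refine ⟨y, ⟨hy, fun z hz => ?_⟩, rfl⟩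
    have := h _ ⟨z, hz, rfl⟩
    rw [inner_mot, inner_mot] at this
    linarith
  · rintro ⟨y, ⟨hy, h⟩, rfl⟩
    refine ⟨⟨y, hy, rfl⟩, ?_⟩
    rintro _ ⟨z, hz, rfl⟩
    rw [inner_mot, inner_mot]
    have := h z hz
    linarith

lemma ridge_mot (P : Set E) (t : E) (s : ℝ) (a b : E) :
    ridge (mot t s '' P) a b = mot t s '' (ridge P (s • a) (s • b)) := by
  unfold ridge
  rw [face_mot, face_mot]

lemma mot_sub (t : E) (s : ℝ) (x y : E) : mot t s y - mot t s x = s • (y - x) := by
  simp only [mot, smul_sub]; abel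

lemma beltRidges_mot (P : Set E) (t : E) {s : ℝ} (hs : s = 1 ∨ s = -1) (u v : E) :
    beltRidges (mot t s '' P) u v = mot t s '' (beltRidges P u v) := by
  have hs0 : s ≠ 0 := by rcases hs with rfl | rfl <;> norm_num
  have hss : s * s = 1 := by rcases hs with rfl | rfl <;> norm_num
  ext x
  simp only [beltRidges, mem_ofPred_eq, mem_image]
  constructor
  · rintro ⟨⟨x, hx, rfl⟩, p, q, h⟩
    refine ⟨x, ⟨hx, s * p, s * q, fun y hy => ?_⟩, rfl⟩
    rcases h _ ⟨y, hy, rfl⟩ with h1 | ⟨h1, h2⟩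
    · left
      rw [mot_sub, inner_smul_right] at h1
      have e : (s * p) • u + (s * q) • v = s • (p • u + q • v) := by module
      rw [e, real_inner_smul_left]
      exact h1
    · right
      rw [mot_sub, inner_smul_right, mul_eq_zero] at h1 h2
      exact ⟨h1.resolve_left hs0, h2.resolve_left hs0⟩
  · rintro ⟨x, ⟨hx, p, q, h⟩, rfl⟩
    refine ⟨⟨x, hx, rfl⟩, s * p, s * q, ?_⟩
    rintro _ ⟨y, hy, rfl⟩
    rcases h y hy with h1 | ⟨h1, h2⟩
    · left
      rw [mot_sub, inner_smul_right]
      have e : (s * p) • u + (s * q) • v = s • (p • u + q • v) := by module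
      rw [e, real_inner_smul_left, ← mul_assoc, hss, one_mul]
      exact h1
    · right
      rw [mot_sub, inner_smul_right, inner_smul_right, h1, h2, mul_zero]
      exact ⟨rfl, rfl⟩

lemma face_closed {T : Set E} (hT : IsClosed T) (a : E) : IsClosed (face T a) := by
  have : face T a = T ∩ ⋂ y ∈ T, {x | ⟪a, y⟫ ≤ ⟪a, x⟫} := by
    ext x; simp [face]
  rw [this]
  apply hT.inter
  apply isClosed_biInter
  intro y _
  exact isClosed_le (by fun_prop) (by fun_prop)

lemma ridge_closed {T : Set E} (hT : IsClosed T) (a b : E) : IsClosed (ridge T a b) :=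
  face_closed (face_closed hT a) b

lemma inner_eq_of_face {T : Set E} {a x y : E} (hx : x ∈ face T a) (hy : y ∈ face T a) :
    ⟪a, x⟫ = ⟪a, y⟫ := le_antisymm (hy.2 x hx.1) (hx.2 y hy.1)

lemma ridge_flat {u v : E} (T : Set E) {σ τ : ℝ} (hσ : σ ≠ 0) (hτ : τ ≠ 0) :
    ∃ x₀, ridge T (σ • u) (τ • v) ⊆ flat u v x₀ := by
  by_cases h : (ridge T (σ • u) (τ • v)).Nonempty
  · obtain ⟨x₀, hx₀⟩ := h
    refine ⟨x₀, fun x hx => ?_⟩
    rw [flat, mem_ofPred_eq, mem_perp]
    have h1 := inner_eq_of_face hx.1 hx₀.1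
    have h2 := inner_eq_of_face hx hx₀
    rw [real_inner_smul_left, real_inner_smul_left] at h1 h2
    have h1' := mul_left_cancel₀ hσ h1
    have h2' := mul_left_cancel₀ hτ h2
    rw [inner_sub_right, inner_sub_right, h1', h2', sub_self, sub_self]
    exact ⟨rfl, rfl⟩
  · refine ⟨0, ?_⟩
    rw [Set.not_nonempty_iff_eq_empty] at h
    rw [h]
    exact empty_subset _

/-- For a polytope the ridges parallel to a flat lie in finitely many flats. -/
lemma beltRidges_flats {u v : E} (V : Finset E) :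
    beltRidges (convexHull ℝ (V : Set E)) u v ⊆ ⋃ x₀ ∈ V, flat u v x₀ := by
  rintro x ⟨hx, p, q, h⟩
  by_contra hcon
  simp only [mem_iUnion, exists_prop, not_exists, not_and] at hcon
  have hV : ∀ w ∈ V, ⟪p • u + q • v, w - x⟫ < 0 := by
    intro w hw
    rcases h w (subset_convexHull ℝ _ hw) with h1 | h1
    · exact h1
    · exfalso
      apply hcon w hw
      rw [flat, mem_ofPred_eq, mem_perp]
      obtain ⟨h1, h2⟩ := h1
      rw [inner_sub_right] at h1 h2 ⊢
      rw [inner_sub_right]
      exact ⟨by linarith, by linarith⟩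
  have hconv : Convex ℝ {y : E | ⟪p • u + q • v, y - x⟫ < 0} := by
    have : {y : E | ⟪p • u + q • v, y - x⟫ < 0} = {y : E | ⟪p • u + q • v, y⟫ < ⟪p • u + q • v, x⟫} := by
      ext y
      simp only [mem_ofPred_eq, inner_sub_right, sub_neg]
    rw [this]
    exact convex_halfSpace_lt (IsLinearMap.mk (fun a b => inner_add_right _ _ _)
      (fun a b => inner_smul_right _ _ _)) _
  have hsub : convexHull ℝ (V : Set E) ⊆ {y : E | ⟪p • u + q • v, y - x⟫ < 0} :=
    convexHull_min (fun w hw => hV w hw) hconv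
  have := hsub hx
  simp at this

lemma beltRidges_closed [FiniteDimensional ℝ E] {u v : E} (V : Finset E) :
    IsClosed (beltRidges (convexHull ℝ (V : Set E)) u v) := by
  classical
  set P := convexHull ℝ (V : Set E) with hP
  have hPc : IsClosed P := (V.finite_toSet.isCompact_convexHull (𝕜 := ℝ)).isClosed
  set V' := V.filter fun w => ∃ x ∈ beltRidges P u v, x ∈ flat u v w with hV'
  have hset : beltRidges P u v = ⋃ w ∈ V', (P ∩ flat u v w) := by
    ext x
    simp only [mem_iUnion, exists_prop, mem_inter_iff]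
    constructor
    · intro hx
      have := beltRidges_flats (u := u) (v := v) V hx
      simp only [mem_iUnion, exists_prop] at this
      obtain ⟨w, hw, hxw⟩ := this
      exact ⟨w, by rw [hV', Finset.mem_filter]; exact ⟨hw, x, hx, hxw⟩, hx.1, hxw⟩
    · rintro ⟨w, hw, hxP, hxw⟩
      rw [hV', Finset.mem_filter] at hw
      obtain ⟨_, y, ⟨hyP, p, q, h⟩, hyw⟩ := hw
      refine ⟨hxP, p, q, fun z hz => ?_⟩
      rw [flat, mem_ofPred_eq, mem_perp, inner_sub_right, inner_sub_right] at hxw hyw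
      have e1 : ⟪u, x⟫ = ⟪u, y⟫ := by linarith [hxw.1, hyw.1]
      have e2 : ⟪v, x⟫ = ⟪v, y⟫ := by linarith [hxw.2, hyw.2]
      rcases h z hz with h1 | ⟨h1, h2⟩
      · left
        rw [inner_sub_right, inner_add_left, inner_add_left, real_inner_smul_left, real_inner_smul_left,
          real_inner_smul_left, real_inner_smul_left] at h1 ⊢
        rw [e1, e2]
        exact h1
      · right
        rw [inner_sub_right] at h1 h2 ⊢
        rw [inner_sub_right, e1, e2]
        exact ⟨h1, h2⟩
  rw [hset]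
  apply V'.finite_toSet.isClosed_biUnion
  intro w _
  exact hPc.inter (flat_closed w)

lemma flat_image {u v : E} (t : E) (s : ℝ) (x₀ : E) :
    mot t s '' (flat u v x₀) ⊆ flat u v (mot t s x₀) := by
  rintro _ ⟨x, hx, rfl⟩
  rw [flat, mem_ofPred_eq, mot_sub]
  exact (perp u v).smul_mem _ hx

end Pool.Agent.H14Belt
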