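import Mathlib
import Pool.Agent.H14Belt.Transfer

set_option autoImplicit false

open Set Filter Topology MeasureTheory Module Metric
open scoped RealInnerProductSpace ENNReal Pointwise

namespace Pool.Agent.H14Belt

variable {E : Type*} [NormedAddCommGroup E] [InnerProductSpace ℝ E] [FiniteDimensional ℝ E]
  [MeasurableSpace E] [BorelSpace E] {u v : E}

lemma boundedTiling {P : Set E} (hc : IsCompact P) (hconv : Convex ℝ P) (hint : (interior P).Nonempty)
    {ι : Type*} {T : ι → Set E} (hT : ∀ i, ∃ t s, (s = 1 ∨ s = -1) ∧ T i = mot t s '' P)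
    (hdis : ∀ i j, i ≠ j → Disjoint (interior (T i)) (interior (T j)))
    (hcov : (⋃ i, T i) = univ) : BoundedTiling T (volume P) (Metric.diam P) where
  conv i := by
    obtain ⟨t, s, _, h⟩ := hT i
    rw [h]
    rintro _ ⟨x, hx, rfl⟩ _ ⟨y, hy, rfl⟩ a b ha hb hab
    refine ⟨a • x + b • y, hconv hx hy ha hb hab, ?_⟩
    simp only [mot]
    have : t = (a + b) • t := by rw [hab, one_smul]
    conv_lhs => rw [this]
    module
  closed i := by
    obtain ⟨t, s, hs, h⟩ := hT i
    rw [h]
    exact (hc.image (mot_isometry t hs).continuous).isClosed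
  int_ne i := by
    obtain ⟨t, s, hs, h⟩ := hT i
    rw [h]
    have hs0 : s ≠ 0 := by rcases hs with rfl | rfl <;> norm_num
    obtain ⟨x, hx⟩ := hint
    have hopen : IsOpenMap (mot t s) := by
      have h1 : IsOpenMap (fun x : E => s • x) := isOpenMap_smul₀ hs0
      have h2 : IsOpenMap (fun x : E => t + x) := isOpenMap_add_left t
      exact h2.comp h1
    exact ⟨mot t s x, hopen.image_interior_subset _ ⟨x, hx, rfl⟩⟩
  disj := hdis
  cover := hcov
  vol i := by
    obtain ⟨t, s, hs, h⟩ := hT i
    rw [h]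
    have e : mot t s '' P = (fun x => t + x) '' (s • P) := by
      ext x
      simp only [mem_image, mot, Set.mem_smul_set]
      constructor
      · rintro ⟨y, hy, rfl⟩; exact ⟨s • y, ⟨y, hy, rfl⟩, rfl⟩
      · rintro ⟨_, ⟨y, hy, rfl⟩, rfl⟩; exact ⟨y, hy, rfl⟩
    rw [e, Set.image_add_left, measure_preimage_add, Measure.addHaar_smul]
    have hs' : |s ^ finrank ℝ E| = 1 := by rcases hs with rfl | rfl <;> simp
    rw [hs']; simp
  V_pos := by
    intro h0
    have h1 : 0 < volume (interior P) := isOpen_interior.measure_pos _ hint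
    have := measure_mono (μ := (volume : Measure E)) (interior_subset (s := P))
    rw [h0] at this
    exact absurd h1 (not_lt.2 this)
  V_fin := hc.measure_ne_top
  diam i x hx y hy := by
    obtain ⟨t, s, hs, h⟩ := hT i
    rw [h] at hx hy
    obtain ⟨x, hx, rfl⟩ := hx
    obtain ⟨y, hy, rfl⟩ := hy
    rw [(mot_isometry t hs).dist_eq]
    exact dist_le_diam_of_mem hc.isBounded hx hy

omit [FiniteDimensional ℝ E] in
lemma hausdorff_mot (t : E) {s : ℝ} (hs : s = 1 ∨ s = -1) {d : ℝ} (hd : 0 ≤ d) (A : Set E) :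
    (Measure.hausdorffMeasure d : Measure E) (mot t s '' A) = Measure.hausdorffMeasure d A :=
  (mot_isometry t hs).hausdorffMeasure_image (Or.inl hd) A

/-- One half of the balance law. -/
lemma balance_le (hu : ‖u‖ = 1) (hv : ‖v‖ = 1) (huv : ⟪u, v⟫ = 0)
    {P : Set E} (hc : IsCompact P) (hconv : Convex ℝ P) (hint : (interior P).Nonempty)
    {ι : Type*} {T : ι → Set E} (hT : ∀ i, ∃ t s, (s = 1 ∨ s = -1) ∧ T i = mot t s '' P)
    (hdis : ∀ i j, i ≠ j → Disjoint (interior (T i)) (interior (T j)))
    (hcov : (⋃ i, T i) = univ) :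
    (Measure.hausdorffMeasure (finrank ℝ (perp u v) : ℝ) : Measure E) (ridge P u v) +
      (Measure.hausdorffMeasure (finrank ℝ (perp u v) : ℝ) : Measure E) (ridge P (-u) (-v)) ≤
    (Measure.hausdorffMeasure (finrank ℝ (perp u v) : ℝ) : Measure E) (ridge P u (-v)) +
      (Measure.hausdorffMeasure (finrank ℝ (perp u v) : ℝ) : Measure E) (ridge P (-u) v) := by
  have hB := boundedTiling hc hconv hint hT hdis hcov
  have hcl : ∀ i, IsClosed (T i) := hB.closed
  have hsum : ∀ (i : ι) (a b : E),
      (Measure.hausdorffMeasure (finrank ℝ (perp u v) : ℝ) : Measure E) (ridge (T i) a b) +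
      (Measure.hausdorffMeasure (finrank ℝ (perp u v) : ℝ) : Measure E) (ridge (T i) (-a) (-b)) =
      (Measure.hausdorffMeasure (finrank ℝ (perp u v) : ℝ) : Measure E) (ridge P a b) +
      (Measure.hausdorffMeasure (finrank ℝ (perp u v) : ℝ) : Measure E) (ridge P (-a) (-b)) := by
    intro i a b
    obtain ⟨t, s, hs, h⟩ := hT i
    rw [h, ridge_mot, ridge_mot, hausdorff_mot t hs (by positivity), hausdorff_mot t hs (by positivity)]
    rcases hs with rfl | rfl
    · simp
    · simp only [neg_smul, one_smul, neg_neg]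
      rw [add_comm]
  have hm : ∀ i (a b : E), MeasurableSet (ridge (T i) a b) := fun i a b =>
    (ridge_closed (hcl i) a b).measurableSet
  have key := hB.main (u := u) (v := v) (F := fun i => ridge (T i) u v) (G := fun i => ridge (T i) (-u) (-v))
    (F' := fun i => ridge (T i) u (-v)) (G' := fun i => ridge (T i) (-u) v)
    (fun i => ridge_subset _ _ _) (fun i => ridge_subset _ _ _) (fun i => hm _ _ _) (fun i => hm _ _ _)
    (fun i => hm _ _ _) (fun i => hm _ _ _) ?_ 1 _ _ (fun i => hsum i u v)
    (fun i => by have := hsum i u (-v); rw [neg_neg] at this; exact this) ?_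
  · rw [Nat.cast_one, one_mul] at key
    exact key
  · intro i
    classical
    obtain ⟨x1, h1⟩ := ridge_flat (u := u) (v := v) (T i) (σ := 1) (τ := 1) one_ne_zero one_ne_zero
    obtain ⟨x2, h2⟩ := ridge_flat (u := u) (v := v) (T i) (σ := -1) (τ := -1) (by norm_num) (by norm_num)
    obtain ⟨x3, h3⟩ := ridge_flat (u := u) (v := v) (T i) (σ := 1) (τ := -1) one_ne_zero (by norm_num)
    obtain ⟨x4, h4⟩ := ridge_flat (u := u) (v := v) (T i) (σ := -1) (τ := 1) (by norm_num) one_ne_zero
    simp only [one_smul, neg_smul] at h1 h2 h3 h4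
    refine ⟨{x1, x2, x3, x4}, ?_⟩
    intro x hx
    simp only [Finset.mem_insert, Finset.mem_singleton, mem_iUnion, exists_prop, exists_eq_or_imp,
      exists_eq_left]
    rcases hx with ((hx | hx) | hx) | hx
    · exact Or.inl (h1 hx)
    · exact Or.inr (Or.inl (h2 hx))
    · exact Or.inr (Or.inr (Or.inl (h3 hx)))
    · exact Or.inr (Or.inr (Or.inr (h4 hx)))
  · intro I x hcov hgen
    rw [one_mul]
    exact (pointwise_balance hu hv huv hB.conv hcl hB.int_ne hdis hcov hgen).le

theorem balance (hu : ‖u‖ = 1) (hv : ‖v‖ = 1) (huv : ⟪u, v⟫ = 0)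
    {P : Set E} (hc : IsCompact P) (hconv : Convex ℝ P) (hint : (interior P).Nonempty)
    {ι : Type*} {T : ι → Set E} (hT : ∀ i, ∃ t s, (s = 1 ∨ s = -1) ∧ T i = mot t s '' P)
    (hdis : ∀ i j, i ≠ j → Disjoint (interior (T i)) (interior (T j)))
    (hcov : (⋃ i, T i) = univ) :
    (Measure.hausdorffMeasure (finrank ℝ (perp u v) : ℝ) : Measure E) (ridge P u v) +
      (Measure.hausdorffMeasure (finrank ℝ (perp u v) : ℝ) : Measure E) (ridge P (-u) (-v)) =
    (Measure.hausdorffMeasure (finrank ℝ (perp u v) : ℝ) : Measure E) (ridge P u (-v)) +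
      (Measure.hausdorffMeasure (finrank ℝ (perp u v) : ℝ) : Measure E) (ridge P (-u) v) := by
  apply le_antisymm (balance_le hu hv huv hc hconv hint hT hdis hcov)
  have hv' : ‖-v‖ = 1 := by rw [norm_neg, hv]
  have huv' : ⟪u, -v⟫ = 0 := by rw [inner_neg_right, huv, neg_zero]
  have h := balance_le hu hv' huv' hc hconv hint hT hdis hcov
  have e : perp u (-v) = perp u v := by
    ext l
    rw [mem_perp, mem_perp, inner_neg_left, neg_eq_zero]
  rw [e, neg_neg] at h
  exact h

theorem total (hu : ‖u‖ = 1) (hv : ‖v‖ = 1) (huv : ⟪u, v⟫ = 0)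
    (V : Finset E) (hint : (interior (convexHull ℝ (V : Set E))).Nonempty)
    {ι : Type*} {T : ι → Set E} (hT : ∀ i, ∃ t s, (s = 1 ∨ s = -1) ∧ T i = mot t s '' (convexHull ℝ (V : Set E)))
    (hdis : ∀ i j, i ≠ j → Disjoint (interior (T i)) (interior (T j)))
    (hcov : (⋃ i, T i) = univ) :
    (Measure.hausdorffMeasure (finrank ℝ (perp u v) : ℝ) : Measure E)
      (beltRidges (convexHull ℝ (V : Set E)) u v) ≤
    3 * ((Measure.hausdorffMeasure (finrank ℝ (perp u v) : ℝ) : Measure E) (ridge (convexHull ℝ (V : Set E)) u v) +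
      (Measure.hausdorffMeasure (finrank ℝ (perp u v) : ℝ) : Measure E) (ridge (convexHull ℝ (V : Set E)) (-u) (-v))) := by
  classical
  set P := convexHull ℝ (V : Set E) with hP
  have hc : IsCompact P := V.finite_toSet.isCompact_convexHull (𝕜 := ℝ)
  have hconv : Convex ℝ P := convex_convexHull ℝ _
  have hB := boundedTiling hc hconv hint hT hdis hcov
  have hcl : ∀ i, IsClosed (T i) := hB.closed
  have hsum : ∀ (i : ι) (a b : E),
      (Measure.hausdorffMeasure (finrank ℝ (perp u v) : ℝ) : Measure E) (ridge (T i) a b) +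
      (Measure.hausdorffMeasure (finrank ℝ (perp u v) : ℝ) : Measure E) (ridge (T i) (-a) (-b)) =
      (Measure.hausdorffMeasure (finrank ℝ (perp u v) : ℝ) : Measure E) (ridge P a b) +
      (Measure.hausdorffMeasure (finrank ℝ (perp u v) : ℝ) : Measure E) (ridge P (-a) (-b)) := by
    intro i a b
    obtain ⟨t, s, hs, h⟩ := hT i
    rw [h, ridge_mot, ridge_mot, hausdorff_mot t hs (by positivity), hausdorff_mot t hs (by positivity)]
    rcases hs with rfl | rfl
    · simp
    · simp only [neg_smul, one_smul, neg_neg]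
      rw [add_comm]
  have hm : ∀ i (a b : E), MeasurableSet (ridge (T i) a b) := fun i a b =>
    (ridge_closed (hcl i) a b).measurableSet
  have hbc : ∀ i, IsClosed (beltRidges (T i) u v) := by
    intro i
    obtain ⟨t, s, hs, h⟩ := hT i
    rw [h, beltRidges_mot P t hs]
    have hcomp : IsCompact (beltRidges P u v) :=
      hc.of_isClosed_subset (beltRidges_closed V) (fun x hx => hx.1)
    exact (hcomp.image (mot_isometry t hs).continuous).isClosed
  have hbm : ∀ i, (Measure.hausdorffMeasure (finrank ℝ (perp u v) : ℝ) : Measure E) (beltRidges (T i) u v) +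
      (Measure.hausdorffMeasure (finrank ℝ (perp u v) : ℝ) : Measure E) ((fun _ : ι => (∅ : Set E)) i) =
      (Measure.hausdorffMeasure (finrank ℝ (perp u v) : ℝ) : Measure E) (beltRidges P u v) := by
    intro i
    obtain ⟨t, s, hs, h⟩ := hT i
    rw [h, beltRidges_mot P t hs, hausdorff_mot t hs (by positivity)]
    simp
  have key := hB.main (u := u) (v := v) (F := fun i => beltRidges (T i) u v) (G := fun _ => (∅ : Set E))
    (F' := fun i => ridge (T i) u v) (G' := fun i => ridge (T i) (-u) (-v))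
    (fun i x hx => hx.1) (fun i => empty_subset _) (fun i => (hbc i).measurableSet)
    (fun i => MeasurableSet.empty) (fun i => hm _ _ _) (fun i => hm _ _ _) ?_ 3 _ _ hbm
    (fun i => hsum i u v) ?_
  · simpa using key
  · intro i
    obtain ⟨t, s, hs, h⟩ := hT i
    obtain ⟨x1, h1⟩ := ridge_flat (u := u) (v := v) (T i) (σ := 1) (τ := 1) one_ne_zero one_ne_zero
    obtain ⟨x2, h2⟩ := ridge_flat (u := u) (v := v) (T i) (σ := -1) (τ := -1) (by norm_num) (by norm_num)
    simp only [one_smul, neg_smul] at h1 h2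
    refine ⟨insert x1 (insert x2 (V.image (mot t s))), ?_⟩
    intro x hx
    simp only [Finset.mem_insert, mem_iUnion, exists_prop, exists_eq_or_imp]
    rcases hx with ((hx | hx) | hx) | hx
    · right; right
      rw [h, beltRidges_mot P t hs] at hx
      obtain ⟨y, hy, rfl⟩ := hx
      have := beltRidges_flats V hy
      simp only [mem_iUnion, exists_prop] at this
      obtain ⟨w, hw, hyw⟩ := this
      exact ⟨mot t s w, Finset.mem_image_of_mem _ hw, flat_image t s w ⟨y, hyw, rfl⟩⟩
    · exact absurd hx (notMem_empty x)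
    · exact Or.inl (h1 hx)
    · exact Or.inr (Or.inl (h2 hx))
  · intro I x hcov hgen
    have := pointwise_total hu hv huv hB.conv hcl hB.int_ne hdis hcov hgen
    simpa using this

end Pool.Agent.H14Belt
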